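import Pool.Agent.PenroseSph.Main

/-! The divergence theorem on spheres for tangential vector fields. -/

open MeasureTheory Filter Topology Set

namespace Pool.Agent.PenroseSph

/-- Polar coordinates for an integrable function. -/
theorem integral_polar {F : E3 → ℝ} (hF : Integrable F (volume : Measure E3)) :
    ∫ x, F x = ∫ r in Ioi (0 : ℝ), r ^ 2 * ∫ ω, F (r • (ω : E3)) ∂sph := by
  have hdim : Module.finrank ℝ E3 - 1 = 2 := by simp
  have h1 : ∫ x, F x = ∫ x : ({(0 : E3)}ᶜ : Set E3), F x.1 ∂((volume : Measure E3).comap (↑)) := by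
    rw [integral_subtype_comap (measurableSet_singleton _).compl fun x ↦ F x,
      restrict_compl_singleton]
  have h2 : ∫ x : ({(0 : E3)}ᶜ : Set E3), F x.1 ∂((volume : Measure E3).comap (↑))
      = ∫ p : Metric.sphere (0 : E3) 1 × Ioi (0 : ℝ), F (p.2.1 • (p.1 : E3))
        ∂(sph.prod (.volumeIoiPow 2)) := by
    have := (volume : Measure E3).measurePreserving_homeomorphUnitSphereProd.integral_comp
      (Homeomorph.measurableEmbedding _) (fun p => F (p.2.1 • (p.1 : E3)))
    rw [hdim] at this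
    rw [← this]
    refine integral_congr_ae (Eventually.of_forall fun x => ?_)
    simp only [homeomorphUnitSphereProd_apply_snd_coe, homeomorphUnitSphereProd_apply_fst_coe]
    congr 1
    have : ‖(x : E3)‖ ≠ 0 := norm_ne_zero_iff.2 x.2
    rw [smul_smul, mul_inv_cancel₀ this, one_smul]
  have hint : Integrable (fun p : Metric.sphere (0 : E3) 1 × Ioi (0 : ℝ) => F (p.2.1 • (p.1 : E3)))
      (sph.prod (.volumeIoiPow 2)) := by
    have := (volume : Measure E3).measurePreserving_homeomorphUnitSphereProd.integrable_comp_emb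
      (Homeomorph.measurableEmbedding _) (g := fun p => F (p.2.1 • (p.1 : E3)))
    rw [hdim] at this
    rw [← this]
    have h3 : Integrable (fun x : ({(0 : E3)}ᶜ : Set E3) => F x.1)
        ((volume : Measure E3).comap (↑)) := by
      have h4 := (integrableOn_iff_comap_subtypeVal (μ := (volume : Measure E3)) (f := F)
        (measurableSet_singleton (0 : E3)).compl).1 hF.integrableOn
      exact h4
    refine h3.congr (Eventually.of_forall fun x => ?_)
    simp only [Function.comp_apply, homeomorphUnitSphereProd_apply_snd_coe,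
      homeomorphUnitSphereProd_apply_fst_coe]
    congr 1
    have : ‖(x : E3)‖ ≠ 0 := norm_ne_zero_iff.2 x.2
    rw [smul_smul, mul_inv_cancel₀ this, one_smul]
  rw [h1, h2, integral_prod_symm _ hint]
  simp only [Measure.volumeIoiPow, ENNReal.ofReal]
  rw [integral_withDensity_eq_integral_smul,
    integral_subtype_comap measurableSet_Ioi
      fun a ↦ Real.toNNReal (a ^ 2) • ∫ ω, F (a • (ω : E3)) ∂sph,
    setIntegral_congr_fun measurableSet_Ioi fun x hx ↦ ?_]
  · rw [NNReal.smul_def, Real.coe_toNNReal _ (pow_nonneg (le_of_lt hx) _), smul_eq_mul]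
  · exact (measurable_subtype_coe.pow_const _).real_toNNReal

section

variable {ρ₁ : ℝ}

/-- Continuity of spherical integrals. -/
theorem continuousOn_sphere_integral {G : E3 → ℝ} (hG : ContinuousOn G {x : E3 | ρ₁ < ‖x‖})
    (h0 : 0 ≤ ρ₁) : ContinuousOn (fun r : ℝ => ∫ ω, G (r • (ω : E3)) ∂sph) (Ioi ρ₁) := by
  rw [continuousOn_iff_continuous_domRestrict]
  have h1 : Continuous (Function.uncurry
      fun (r : Ioi ρ₁) (ω : Metric.sphere (0 : E3) 1) => G (r.1 • (ω : E3))) := by
    refine hG.comp_continuous (f := fun p : Ioi ρ₁ × Metric.sphere (0 : E3) 1 =>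
      p.1.1 • (p.2 : E3)) (by fun_prop) ?_
    rintro ⟨r, ω⟩
    have hr : ρ₁ < r.1 := r.2
    simp only [mem_ofPred_eq, norm_smul, norm_eq_of_mem_sphere ω, mul_one]
    rwa [Real.norm_eq_abs, abs_of_pos (lt_of_le_of_lt h0 hr)]
  have : LocallyCompactSpace (Ioi ρ₁) := isOpen_Ioi.isOpenEmbedding_subtypeVal.locallyCompactSpace
  have h2 := continuous_parametric_integral_of_continuous (μ := sph) h1
    (isCompact_univ (X := Metric.sphere (0 : E3) 1))
  simp only [Measure.restrict_univ] at h2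
  exact h2

variable {χ : ℝ → ℝ}

theorem isCompact_shell (hc : HasCompactSupport χ) : IsCompact {x : E3 | ‖x‖ ∈ tsupport χ} := by
  obtain ⟨R, hR⟩ := hc.isBounded.subset_closedBall (0 : ℝ)
  refine Metric.isCompact_of_isClosed_isBounded ((isClosed_tsupport χ).preimage continuous_norm)
    ((Metric.isBounded_closedBall (x := (0 : E3)) (r := R)).subset ?_)
  intro x hx
  have := hR hx
  simp only [Metric.mem_closedBall, dist_zero_right, norm_norm] at this ⊢
  exact this

theorem integrable_shell (hc : HasCompactSupport χ) (hs : tsupport χ ⊆ Ioi ρ₁)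
    {φ ψ : E3 → ℝ} (hφ : ContinuousOn φ {x : E3 | ρ₁ < ‖x‖})
    (hφs : ∀ x, ‖x‖ ∉ tsupport χ → φ x = 0) (hψ : ContinuousOn ψ {x : E3 | ρ₁ < ‖x‖}) :
    Integrable (fun x => φ x * ψ x) (volume : Measure E3) := by
  have hK := isCompact_shell hc
  have hKs : {x : E3 | ‖x‖ ∈ tsupport χ} ⊆ {x : E3 | ρ₁ < ‖x‖} := fun x hx => hs hx
  rw [← integrableOn_iff_integrable_of_support_subset (s := {x : E3 | ‖x‖ ∈ tsupport χ})]
  · exact ((hφ.mono hKs).mul (hψ.mono hKs)).integrableOn_compact hK
  · intro x hx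
    by_contra hxs
    exact hx (by simp [hφs x hxs])

theorem hasFDerivAt_comp_norm (hχ : ContDiff ℝ 1 χ) {x : E3} (hx : x ≠ 0) :
    HasFDerivAt (fun y : E3 => χ ‖y‖) (deriv χ ‖x‖ • (‖x‖⁻¹ • (innerSL ℝ x))) x :=
  ((hχ.differentiable (by norm_num)).differentiableAt.hasDerivAt).comp_hasFDerivAt x
    (hasFDerivAt_norm hx)

theorem eventually_comp_norm_zero {x : E3} (hx : ‖x‖ ∉ tsupport χ) :
    (fun y : E3 => χ ‖y‖) =ᶠ[𝓝 x] fun _ => 0 := by
  have : ∀ᶠ y in 𝓝 x, ‖y‖ ∈ (tsupport χ)ᶜ :=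
    continuous_norm.continuousAt.eventually ((isClosed_tsupport χ).isOpen_compl.mem_nhds hx)
  filter_upwards [this] with y hy
  exact image_eq_zero_of_notMem_tsupport hy

/-- The weak form of the divergence theorem. -/
theorem integral_mul_div_eq_zero (h0 : 0 ≤ ρ₁) {b : Fin 3 → E3 → ℝ}
    (hb : ∀ i, ContDiffOn ℝ 1 (b i) {x : E3 | ρ₁ < ‖x‖})
    (htan : ∀ x : E3, ρ₁ < ‖x‖ → ∑ i, (x i / ‖x‖) * b i x = 0)
    (hχ : ContDiff ℝ 1 χ) (hc : HasCompactSupport χ) (hs : tsupport χ ⊆ Ioi ρ₁) :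
    ∫ x : E3, χ ‖x‖ * ∑ i, pd i (b i) x = 0 := by
  have hopen : IsOpen {x : E3 | ρ₁ < ‖x‖} := isOpen_region
  have hχn : Continuous fun x : E3 => χ ‖x‖ := hχ.continuous.comp continuous_norm
  have hsupp : ∀ x : E3, ‖x‖ ∉ tsupport χ → χ ‖x‖ = 0 := fun x hx =>
    image_eq_zero_of_notMem_tsupport hx
  have hdb : ∀ i (x : E3), ρ₁ < ‖x‖ → DifferentiableAt ℝ (b i) x := fun i x hx =>
    ((hb i).differentiableOn (by norm_num)).differentiableAt (hopen.mem_nhds hx)
  have hcb : ∀ i, ContinuousOn (fun x => fderiv ℝ (b i) x (EuclideanSpace.single i 1))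
      {x : E3 | ρ₁ < ‖x‖} := fun i =>
    ((hb i).continuousOn_fderiv_of_isOpen hopen le_rfl).clm_apply continuousOn_const
  have hpf : ∀ i (x : E3), ρ₁ < ‖x‖ →
      fderiv ℝ (fun y : E3 => χ ‖y‖) x (EuclideanSpace.single i 1)
        = deriv χ ‖x‖ * (x i / ‖x‖) := by
    intro i x hx
    rw [(hasFDerivAt_comp_norm hχ (ne_zero_of_lt h0 hx)).fderiv]
    simp [EuclideanSpace.inner_single_right]
    left
    ring
  have hpf0 : ∀ i (x : E3), ‖x‖ ∉ tsupport χ →
      fderiv ℝ (fun y : E3 => χ ‖y‖) x (EuclideanSpace.single i 1) = 0 := by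
    intro i x hx
    rw [(eventually_comp_norm_zero hx).fderiv_eq]
    simp
  have hcf : ∀ i, ContinuousOn
      (fun x => fderiv ℝ (fun y : E3 => χ ‖y‖) x (EuclideanSpace.single i 1))
      {x : E3 | ρ₁ < ‖x‖} := by
    intro i
    have h1 : ContinuousOn (fun x : E3 => deriv χ ‖x‖ * (x i / ‖x‖)) {x : E3 | ρ₁ < ‖x‖} := by
      have h2 : Continuous fun x : E3 => deriv χ ‖x‖ :=
        (hχ.continuous_deriv le_rfl).comp continuous_norm
      refine h2.continuousOn.mul (ContinuousOn.div (by fun_prop) continuous_norm.continuousOn ?_)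
      intro x hx
      exact (lt_of_le_of_lt h0 hx).ne'
    exact h1.congr fun x hx => hpf i x hx
  have hdf : ∀ x : E3, DifferentiableAt ℝ (fun y : E3 => χ ‖y‖) x := by
    intro x
    by_cases hx : ‖x‖ ∈ tsupport χ
    · exact (hasFDerivAt_comp_norm hχ (ne_zero_of_lt h0 (hs hx))).differentiableAt
    · exact (differentiableAt_const (0 : ℝ)).congr_of_eventuallyEq (eventually_comp_norm_zero hx)
  have hts : ∀ x : E3, x ∈ tsupport (fun y : E3 => χ ‖y‖) → ‖x‖ ∈ tsupport χ := by
    intro x hx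
    by_contra hcon
    exact (notMem_tsupport_iff_eventuallyEq.2 (eventually_comp_norm_zero hcon)) hx
  have key : ∀ i, ∫ x : E3, χ ‖x‖ * pd i (b i) x
      = - ∫ x : E3, fderiv ℝ (fun y : E3 => χ ‖y‖) x (EuclideanSpace.single i 1) * b i x := by
    intro i
    refine integral_mul_fderiv_eq_neg_fderiv_mul_of_integrable
      (f := fun y : E3 => χ ‖y‖) (g := b i) (v := EuclideanSpace.single i 1) ?_ ?_ ?_ ?_ ?_
    · exact integrable_shell hc hs (hcf i) (fun x hx => hpf0 i x hx) (hb i).continuousOn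
    · exact integrable_shell hc hs hχn.continuousOn hsupp (hcb i)
    · exact integrable_shell hc hs hχn.continuousOn hsupp (hb i).continuousOn
    · exact fun x _ => hdf x
    · exact fun x hx => hdb i x (hs (hts x hx))
  have hint : ∀ i, Integrable (fun x : E3 => χ ‖x‖ * pd i (b i) x) (volume : Measure E3) :=
    fun i => integrable_shell hc hs hχn.continuousOn hsupp (hcb i)
  have hint' : ∀ i, Integrable (fun x : E3 =>
      fderiv ℝ (fun y : E3 => χ ‖y‖) x (EuclideanSpace.single i 1) * b i x)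
      (volume : Measure E3) :=
    fun i => integrable_shell hc hs (hcf i) (fun x hx => hpf0 i x hx) (hb i).continuousOn
  have e1 : ∫ x : E3, χ ‖x‖ * ∑ i, pd i (b i) x = ∑ i, ∫ x : E3, χ ‖x‖ * pd i (b i) x := by
    rw [← integral_finsetSum _ fun i _ => hint i]
    simp only [Finset.mul_sum]
  rw [e1, Finset.sum_congr rfl fun i _ => key i, Finset.sum_neg_distrib,
    ← integral_finsetSum _ fun i _ => hint' i]
  rw [neg_eq_zero]
  rw [integral_eq_zero_of_ae]
  refine Eventually.of_forall fun x => ?_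
  simp only [Pi.zero_apply]
  by_cases hx : ‖x‖ ∈ tsupport χ
  · have hx' : ρ₁ < ‖x‖ := hs hx
    have h1 : ∀ i, fderiv ℝ (fun y : E3 => χ ‖y‖) x (EuclideanSpace.single i 1) * b i x
        = deriv χ ‖x‖ * ((x i / ‖x‖) * b i x) := fun i => by rw [hpf i x hx']; ring
    rw [Finset.sum_congr rfl fun i _ => h1 i, ← Finset.mul_sum, htan x hx', mul_zero]
  · refine Finset.sum_eq_zero fun i _ => ?_
    rw [hpf0 i x hx, zero_mul]

/-- The divergence theorem on spheres for tangential fields. -/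
theorem integral_sphere_div_eq_zero (h0 : 0 ≤ ρ₁) {b : Fin 3 → E3 → ℝ}
    (hb : ∀ i, ContDiffOn ℝ 1 (b i) {x : E3 | ρ₁ < ‖x‖})
    (htan : ∀ x : E3, ρ₁ < ‖x‖ → ∑ i, (x i / ‖x‖) * b i x = 0) {ρ : ℝ} (hρ : ρ₁ < ρ) :
    ∫ ω, (∑ i, pd i (b i) (ρ • (ω : E3))) ∂sph = 0 := by
  have hopen : IsOpen {x : E3 | ρ₁ < ‖x‖} := isOpen_region
  have hG : ContinuousOn (fun x => ∑ i, pd i (b i) x) {x : E3 | ρ₁ < ‖x‖} := by
    refine continuousOn_finsetSum _ fun i _ => ?_
    exact ((hb i).continuousOn_fderiv_of_isOpen hopen le_rfl).clm_apply continuousOn_const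
  have hcont := continuousOn_sphere_integral hG h0
  set Gh : ℝ → ℝ := fun r => ∫ ω, (∑ i, pd i (b i) (r • (ω : E3))) ∂sph with hGh
  have hcont' : ContinuousOn (fun r : ℝ => r ^ 2 * Gh r) (Ioi ρ₁) :=
    (by fun_prop : Continuous fun r : ℝ => r ^ 2).continuousOn.mul hcont
  have hae := isOpen_Ioi.ae_eq_zero_of_integral_contDiff_smul_eq_zero (μ := volume) (U := Ioi ρ₁)
    (f := fun r : ℝ => r ^ 2 * Gh r) (hcont'.locallyIntegrableOn measurableSet_Ioi) ?_
  · have h1 : (fun r : ℝ => r ^ 2 * Gh r) =ᵐ[volume.restrict (Ioi ρ₁)] fun _ => 0 :=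
      (ae_restrict_iff' measurableSet_Ioi).2 hae
    have h2 := Measure.eqOn_open_of_ae_eq h1 isOpen_Ioi hcont' continuousOn_const
    have h3 := h2 hρ
    have hρ0 : ρ ≠ 0 := (lt_of_le_of_lt h0 hρ).ne'
    simp only [mul_eq_zero, pow_eq_zero_iff, ne_eq, OfNat.ofNat_ne_zero, not_false_eq_true,
      hρ0, false_or] at h3
    exact h3
  · intro χ hχ hc hs
    have hχ1 : ContDiff ℝ 1 χ := hχ.of_le (by exact_mod_cast le_top)
    have h1 := integral_mul_div_eq_zero h0 hb htan hχ1 hc hs
    rw [integral_polar] at h1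
    · have h2 : ∫ r in Ioi (0 : ℝ), r ^ 2 * ∫ ω : Metric.sphere (0 : E3) 1,
          χ ‖r • (ω : E3)‖ * ∑ i, pd i (b i) (r • (ω : E3)) ∂sph
          = ∫ r in Ioi (0 : ℝ), χ r • (r ^ 2 * Gh r) := by
        refine setIntegral_congr_fun measurableSet_Ioi fun r hr => ?_
        have hr0 : 0 < r := hr
        simp only [norm_smul, norm_eq_of_mem_sphere, mul_one, Real.norm_eq_abs, abs_of_pos hr0]
        rw [integral_const_mul, smul_eq_mul, hGh]
        ring
      rw [h2] at h1
      rw [← h1, ← integral_indicator measurableSet_Ioi]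
      refine integral_congr_ae (Eventually.of_forall fun r => ?_)
      simp only [indicator]
      split_ifs with hr
      · rfl
      · have : χ r = 0 := by
          refine image_eq_zero_of_notMem_tsupport fun hmem => hr ?_
          exact lt_of_le_of_lt h0 (hs hmem)
        rw [this, zero_smul]
    · exact integrable_shell hc hs (hχ1.continuous.comp continuous_norm).continuousOn
        (fun x hx => image_eq_zero_of_notMem_tsupport hx) hG

end

end Pool.Agent.PenroseSph
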