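import Pool.Agent.PenroseSph.Defs

/-! Calculus of partial derivatives. -/

open MeasureTheory Filter Topology

namespace Pool.Agent.PenroseSph

variable {f f' : E3 → ℝ} {x : E3} {i j : Fin 3}

theorem pd_congr (h : f =ᶠ[𝓝 x] f') : pd i f x = pd i f' x := by
  unfold pd; rw [h.fderiv_eq]

theorem pd_add (hf : DifferentiableAt ℝ f x) (hg : DifferentiableAt ℝ f' x) :
    pd i (fun y => f y + f' y) x = pd i f x + pd i f' x := by
  unfold pd; rw [fderiv_fun_add hf hg]; rfl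

theorem pd_sub (hf : DifferentiableAt ℝ f x) (hg : DifferentiableAt ℝ f' x) :
    pd i (fun y => f y - f' y) x = pd i f x - pd i f' x := by
  unfold pd; rw [fderiv_fun_sub hf hg]; rfl

theorem pd_mul (hf : DifferentiableAt ℝ f x) (hg : DifferentiableAt ℝ f' x) :
    pd i (fun y => f y * f' y) x = f x * pd i f' x + f' x * pd i f x := by
  unfold pd; rw [fderiv_fun_mul hf hg]; rfl

theorem pd_const_mul (c : ℝ) (hf : DifferentiableAt ℝ f x) :
    pd i (fun y => c * f y) x = c * pd i f x := by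
  unfold pd; rw [fderiv_const_mul hf]; rfl

theorem pd_mul_const (c : ℝ) (hf : DifferentiableAt ℝ f x) :
    pd i (fun y => f y * c) x = pd i f x * c := by
  have := pd_const_mul (i := i) c hf
  simp only [mul_comm c] at this
  exact this

theorem pd_const (c : ℝ) : pd i (fun _ => c) x = 0 := by
  unfold pd; simp

theorem pd_sum {ι : Type*} (s : Finset ι) (F : ι → E3 → ℝ)
    (hF : ∀ a ∈ s, DifferentiableAt ℝ (F a) x) :
    pd i (fun y => ∑ a ∈ s, F a y) x = ∑ a ∈ s, pd i (F a) x := by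
  unfold pd
  rw [fderiv_fun_sum hF]
  simp

theorem differentiableAt_coord (j : Fin 3) : DifferentiableAt ℝ (fun y : E3 => y j) x := by
  fun_prop

theorem pd_coord : pd i (fun y => y j) x = if i = j then 1 else 0 := by
  unfold pd
  have : (fun y : E3 => y j) = fun y => (EuclideanSpace.proj j : E3 →L[ℝ] ℝ) y := rfl
  rw [this, ContinuousLinearMap.fderiv]
  simp [eq_comm]

theorem hasFDerivAt_norm (hx : x ≠ 0) :
    HasFDerivAt (fun y : E3 => ‖y‖) (‖x‖⁻¹ • (innerSL ℝ x)) x := by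
  have h1 : HasFDerivAt (fun y : E3 => ‖y‖ ^ 2) (2 • (innerSL ℝ x)) x :=
    (hasStrictFDerivAt_norm_sq x).hasFDerivAt
  have hx2 : ‖x‖ ^ 2 ≠ 0 := by positivity
  have h2 := h1.sqrt hx2
  have h3 : (fun y : E3 => Real.sqrt (‖y‖ ^ 2)) = fun y => ‖y‖ := by
    funext y; exact Real.sqrt_sq (norm_nonneg y)
  rw [h3] at h2
  refine h2.congr_fderiv ?_
  ext v
  simp only [ContinuousLinearMap.smul_apply, nsmul_eq_mul, smul_eq_mul]
  rw [Real.sqrt_sq (norm_nonneg x)]
  have : ‖x‖ ≠ 0 := by positivity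
  simp
  field_simp

theorem differentiableAt_norm (hx : x ≠ 0) : DifferentiableAt ℝ (fun y : E3 => ‖y‖) x :=
  (hasFDerivAt_norm hx).differentiableAt

theorem pd_radial {F : ℝ → ℝ} {F' : ℝ} (hx : x ≠ 0) (hF : HasDerivAt F F' ‖x‖) :
    pd i (fun y => F ‖y‖) x = F' * (x i / ‖x‖) := by
  unfold pd
  have h1 : HasFDerivAt (fun y : E3 => F ‖y‖) (F' • (‖x‖⁻¹ • (innerSL ℝ x))) x :=
    hF.comp_hasFDerivAt x (hasFDerivAt_norm hx)
  rw [h1.fderiv]
  simp [EuclideanSpace.inner_single_right]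
  left
  ring

theorem differentiableAt_radial {F : ℝ → ℝ} {F' : ℝ} (hx : x ≠ 0) (hF : HasDerivAt F F' ‖x‖) :
    DifferentiableAt ℝ (fun y : E3 => F ‖y‖) x :=
  (hF.comp_hasFDerivAt x (hasFDerivAt_norm hx)).differentiableAt

theorem norm_sq_eq (x : E3) : ‖x‖ ^ 2 = x 0 ^ 2 + x 1 ^ 2 + x 2 ^ 2 := by
  rw [EuclideanSpace.norm_sq_eq, Fin.sum_univ_three]
  simp

end Pool.Agent.PenroseSph
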