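import Pool.Agent.PenroseSph.Defs

/-! The averaged energy condition. -/

open MeasureTheory

namespace Pool.Agent.PenroseSph

/-- The mean value of `f` over the coordinate sphere `|x| = ρ`. -/
noncomputable def sphereMean (f : E3 → ℝ) (ρ : ℝ) : ℝ :=
  (4 * Real.pi)⁻¹ * ∫ ω : Metric.sphere (0 : E3) 1, f (ρ • (ω : E3))
    ∂((volume : Measure E3).toSphere)

/-- The averaged energy condition on the region `|x| > ρ₁`: on every coordinate sphere of positive
mean curvature the mean of `(tr h)² - |h|²` is at most the value of the same quadratic expression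
for the rotational average of `h`, which has radial component `sphereMean (radialPart h)` and
tangential trace `sphereMean (tangentialTrace h)`. -/
def AveragedEnergyCondition (ρ₁ : ℝ) (u : ℝ → ℝ) (h : TensorField) : Prop :=
  ∀ ρ : ℝ, ρ₁ < ρ → 0 < 1 / ρ + deriv u ρ →
    sphereMean (fun x => (∑ i, h x i i) ^ 2 - ∑ i, ∑ j, h x i j ^ 2) ρ ≤
      2 * sphereMean (radialPart h) ρ * sphereMean (tangentialTrace h) ρ
        + sphereMean (tangentialTrace h) ρ ^ 2 / 2

end Pool.Agent.PenroseSph
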