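import Pool.Agent.PenroseSph.SphereDiv
import Pool.Agent.PenroseSph.MeanDefs

/-! Averages over spheres. -/

open MeasureTheory Filter Topology Set

namespace Pool.Agent.PenroseSph

section

variable {ρ₁ : ℝ} {u : ℝ → ℝ} {g h : TensorField}

theorem contDiffOn_nu (h0 : 0 ≤ ρ₁) (i : Fin 3) :
    ContDiffOn ℝ 1 (fun x : E3 => x i / ‖x‖) {x : E3 | ρ₁ < ‖x‖} := by
  have h1 : ContDiffOn ℝ 1 (fun x : E3 => x i) {x : E3 | ρ₁ < ‖x‖} := by fun_prop
  have h2 : ContDiffOn ℝ 1 (fun x : E3 => ‖x‖) {x : E3 | ρ₁ < ‖x‖} := fun x hx =>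
    (contDiffAt_norm ℝ (ne_zero_of_lt h0 hx)).contDiffWithinAt
  exact h1.div h2 fun x hx => (lt_of_le_of_lt h0 hx).ne'

theorem contDiffOn_radialPart (hd : SphericalMetricData ρ₁ u g h) :
    ContDiffOn ℝ 1 (radialPart h) {x : E3 | ρ₁ < ‖x‖} := by
  have : radialPart h = fun y => ∑ i, ∑ j, h y i j * (y i / ‖y‖) * (y j / ‖y‖) := rfl
  rw [this]
  exact ContDiffOn.sum fun i _ => ContDiffOn.sum fun j _ =>
    ((hd.contDiff_h i j).mul (contDiffOn_nu hd.radius_nonneg i)).mul
      (contDiffOn_nu hd.radius_nonneg j)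

theorem contDiffOn_tangentialTrace (hd : SphericalMetricData ρ₁ u g h) :
    ContDiffOn ℝ 1 (tangentialTrace h) {x : E3 | ρ₁ < ‖x‖} := by
  have : tangentialTrace h = fun y => (∑ i, h y i i) - radialPart h y := rfl
  rw [this]
  exact (ContDiffOn.sum fun i _ => hd.contDiff_h i i).sub (contDiffOn_radialPart hd)

theorem contDiffOn_tangentialFlux (hd : SphericalMetricData ρ₁ u g h) (i : Fin 3) :
    ContDiffOn ℝ 1 (tangentialFlux h i) {x : E3 | ρ₁ < ‖x‖} := by
  have : tangentialFlux h i =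
    fun y => (∑ j, h y i j * (y j / ‖y‖)) - radialPart h y * (y i / ‖y‖) := rfl
  rw [this]
  exact (ContDiffOn.sum fun j _ => (hd.contDiff_h i j).mul
    (contDiffOn_nu hd.radius_nonneg j)).sub
    ((contDiffOn_radialPart hd).mul (contDiffOn_nu hd.radius_nonneg i))

theorem sum_nu_tangentialFlux {x : E3} (hx : x ≠ 0) :
    ∑ i, (x i / ‖x‖) * tangentialFlux h i x = 0 := by
  have h2 := sum_nu_sq hx
  have hη : radialPart h x = ∑ i, ∑ j, h x i j * (x i / ‖x‖) * (x j / ‖x‖) := rfl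
  unfold tangentialFlux
  simp only [Fin.sum_univ_three] at hη h2 ⊢
  linear_combination (-radialPart h x) * h2 - hη

theorem continuousOn_pd {f : E3 → ℝ} (hf : ContDiffOn ℝ 1 f {x : E3 | ρ₁ < ‖x‖}) (i : Fin 3) :
    ContinuousOn (fun x => pd i f x) {x : E3 | ρ₁ < ‖x‖} :=
  (hf.continuousOn_fderiv_of_isOpen isOpen_region le_rfl).clm_apply continuousOn_const

theorem continuousOn_fluxDivergence (hd : SphericalMetricData ρ₁ u g h) :
    ContinuousOn (fluxDivergence h) {x : E3 | ρ₁ < ‖x‖} :=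
  continuousOn_finsetSum _ fun i _ => continuousOn_pd (contDiffOn_tangentialFlux hd i) i

theorem continuousOn_rd (hd : SphericalMetricData ρ₁ u g h) :
    ContinuousOn (rd (tangentialTrace h)) {x : E3 | ρ₁ < ‖x‖} :=
  continuousOn_finsetSum _ fun i _ => (contDiffOn_nu hd.radius_nonneg i).continuousOn.mul
    (continuousOn_pd (contDiffOn_tangentialTrace hd) i)

theorem continuousOn_shearSq (hd : SphericalMetricData ρ₁ u g h) :
    ContinuousOn (shearSq h) {x : E3 | ρ₁ < ‖x‖} := by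
  have h1 := (contDiffOn_radialPart hd).continuousOn
  have h2 := (contDiffOn_tangentialTrace hd).continuousOn
  have h3 : ContinuousOn (fun x => ∑ i, ∑ j, h x i j ^ 2) {x : E3 | ρ₁ < ‖x‖} :=
    continuousOn_finsetSum _ fun i _ => continuousOn_finsetSum _ fun j _ =>
      (hd.contDiff_h i j).continuousOn.pow 2
  exact (h3.sub (h1.pow 2)).sub ((h2.pow 2).div_const 2)

theorem fluxDivergence_mean (hd : SphericalMetricData ρ₁ u g h) {ρ : ℝ} (hρ : ρ₁ < ρ) :
    ∫ ω, fluxDivergence h (ρ • (ω : E3)) ∂sph = 0 :=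
  integral_sphere_div_eq_zero hd.radius_nonneg (contDiffOn_tangentialFlux hd)
    (fun _ hx => sum_nu_tangentialFlux (ne_zero_of_lt hd.radius_nonneg hx)) hρ

/-- Continuous functions on the sphere are integrable. -/
theorem integrable_sph {f : Metric.sphere (0 : E3) 1 → ℝ} (hf : Continuous f) :
    Integrable f sph :=
  hf.integrable_of_hasCompactSupport (HasCompactSupport.of_compactSpace f)

theorem continuous_pt_comp {f : E3 → ℝ} (hf : ContinuousOn f {x : E3 | ρ₁ < ‖x‖}) {t : ℝ}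
    (ht : ρ₁ < Real.exp t) : Continuous fun ω => f (pt t ω) :=
  hf.comp_continuous (by unfold pt; fun_prop) fun ω => lt_norm_pt ht ω

/-- mean value over the sphere of radius `exp t` -/
noncomputable def mn (F : Metric.sphere (0 : E3) 1 → ℝ) : ℝ := (4 * Real.pi)⁻¹ * ∫ ω, F ω ∂sph

theorem mn_const (c : ℝ) : mn (fun _ => c) = c := by
  unfold mn
  rw [integral_const, sph_univ, smul_eq_mul]
  have := Real.pi_ne_zero
  field_simp

theorem mn_add {F G : Metric.sphere (0 : E3) 1 → ℝ} (hF : Integrable F sph)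
    (hG : Integrable G sph) : mn (fun ω => F ω + G ω) = mn F + mn G := by
  unfold mn
  rw [integral_add hF hG, mul_add]

theorem mn_sub {F G : Metric.sphere (0 : E3) 1 → ℝ} (hF : Integrable F sph)
    (hG : Integrable G sph) : mn (fun ω => F ω - G ω) = mn F - mn G := by
  unfold mn
  rw [integral_sub hF hG, mul_sub]

theorem mn_mul (c : ℝ) (F : Metric.sphere (0 : E3) 1 → ℝ) :
    mn (fun ω => c * F ω) = c * mn F := by
  unfold mn
  rw [integral_const_mul]
  ring

theorem mn_mono {F G : Metric.sphere (0 : E3) 1 → ℝ} (hF : Integrable F sph)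
    (hG : Integrable G sph) (hle : ∀ ω, F ω ≤ G ω) : mn F ≤ mn G := by
  unfold mn
  have := Real.pi_pos
  have := integral_mono hF hG hle
  gcongr

theorem abs_mn_le (F : Metric.sphere (0 : E3) 1 → ℝ) : |mn F| ≤ mn fun ω => |F ω| := by
  unfold mn
  have := Real.pi_pos
  rw [abs_mul, abs_of_pos (by positivity)]
  have := abs_integral_le_integral_abs (f := F) (μ := sph)
  gcongr

theorem continuous_kf_at (hd : SphericalMetricData ρ₁ u g h) {t : ℝ} (ht : ρ₁ < Real.exp t) :
    Continuous (kf h t) :=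
  continuous_const.mul (continuous_pt_comp (contDiffOn_tangentialTrace hd).continuousOn ht)

theorem continuous_Pf_at (hd : SphericalMetricData ρ₁ u g h) {t : ℝ} (ht : ρ₁ < Real.exp t) :
    Continuous (Pf h t) :=
  continuous_const.mul (continuous_pt_comp (contDiffOn_radialPart hd).continuousOn ht)

theorem continuous_Df_at (hd : SphericalMetricData ρ₁ u g h) {t : ℝ} (ht : ρ₁ < Real.exp t) :
    Continuous (Df h t) :=
  continuous_const.mul (continuous_pt_comp (continuousOn_fluxDivergence hd) ht)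

theorem continuous_Ef_at (hd : SphericalMetricData ρ₁ u g h) {t : ℝ} (ht : ρ₁ < Real.exp t) :
    Continuous (Ef h t) :=
  continuous_const.mul (continuous_pt_comp (continuousOn_shearSq hd) ht)

theorem continuous_kdf_at (hd : SphericalMetricData ρ₁ u g h) {t : ℝ} (ht : ρ₁ < Real.exp t) :
    Continuous (kdf h t) :=
  (continuous_const.mul (continuous_pt_comp (contDiffOn_tangentialTrace hd).continuousOn ht)).add
    (continuous_const.mul (continuous_pt_comp (continuousOn_rd hd) ht))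

theorem continuousOn_kdf (hd : SphericalMetricData ρ₁ u g h) {T0 : ℝ}
    (hT : ρ₁ < Real.exp T0) :
    ContinuousOn (Function.uncurry (kdf h)) (Set.Ici T0 ×ˢ Set.univ) := by
  have h1 := continuousOn_comp_pt (contDiffOn_tangentialTrace hd).continuousOn hT
  have h2 := continuousOn_comp_pt (continuousOn_rd hd) hT
  have h3 : Continuous fun p : ℝ × Metric.sphere (0 : E3) 1 => 2 * Real.exp p.1 ^ 2 := by fun_prop
  have h4 : Continuous fun p : ℝ × Metric.sphere (0 : E3) 1 => Real.exp p.1 ^ 3 := by fun_prop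
  exact (h3.continuousOn.mul h1).add (h4.continuousOn.mul h2)

theorem hasDerivAt_mean (hd : SphericalMetricData ρ₁ u g h) {t : ℝ} (ht : ρ₁ < Real.exp t) :
    HasDerivAt (fun s => mn (kf h s)) (mn (kdf h t)) t := by
  -- a smaller radius still in the region
  obtain ⟨T0, hT0t, hT0⟩ : ∃ T0 < t, ρ₁ < Real.exp T0 := by
    have h1 : ∀ᶠ s in 𝓝[<] t, ρ₁ < Real.exp s :=
      (Real.continuous_exp.continuousAt.eventually (lt_mem_nhds ht)).filter_mono
        nhdsWithin_le_nhds
    obtain ⟨s, hs1, hs2⟩ := (h1.and self_mem_nhdsWithin).exists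
    exact ⟨s, hs2, hs1⟩
  have hlt : ∀ s, T0 ≤ s → ρ₁ < Real.exp s := fun s hs =>
    lt_of_lt_of_le hT0 (Real.exp_le_exp.2 hs)
  have hK : IsCompact (Icc T0 (t + 1) ×ˢ (univ : Set (Metric.sphere (0 : E3) 1))) :=
    isCompact_Icc.prod isCompact_univ
  obtain ⟨C, hC⟩ := hK.exists_bound_of_continuousOn
    ((continuousOn_kdf hd hT0).mono fun p hp => ⟨hp.1.1, mem_univ _⟩)
  have key := hasDerivAt_integral_of_dominated_loc_of_deriv_le (μ := sph)
    (F := fun s ω => kf h s ω) (F' := fun s ω => kdf h s ω) (x₀ := t) (s := Ioo T0 (t + 1))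
    (bound := fun _ => C) (Ioo_mem_nhds hT0t (by linarith)) ?_ ?_ ?_ ?_ ?_ ?_
  · exact key.2.const_mul _
  · filter_upwards [Ioo_mem_nhds hT0t (by linarith : t < t + 1)] with s hs
    exact (continuous_kf_at hd (hlt s hs.1.le)).aestronglyMeasurable
  · exact integrable_sph (continuous_kf_at hd ht)
  · exact (continuous_kdf_at hd ht).aestronglyMeasurable
  · exact Eventually.of_forall fun ω s hs => hC (s, ω) ⟨⟨hs.1.le, hs.2.le⟩, mem_univ _⟩
  · exact integrable_const _
  · exact Eventually.of_forall fun ω s hs => hasDerivAt_kf hd s (hlt s hs.1.le) ω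

theorem mn_Df (hd : SphericalMetricData ρ₁ u g h) {t : ℝ} (ht : ρ₁ < Real.exp t) :
    mn (Df h t) = 0 := by
  have h1 : Df h t = fun ω => Real.exp t ^ 3 * fluxDivergence h (pt t ω) := rfl
  rw [h1, mn_mul]
  unfold mn
  have h2 := fluxDivergence_mean hd ht
  have h3 : ∫ ω, fluxDivergence h (pt t ω) ∂sph = 0 := h2
  rw [h3]
  ring

theorem mn_kf_eq (t : ℝ) : mn (kf h t) = Real.exp t ^ 2 * sphereMean (tangentialTrace h)
    (Real.exp t) := by
  have h1 : kf h t = fun ω => Real.exp t ^ 2 * tangentialTrace h (pt t ω) := rfl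
  rw [h1, mn_mul]
  rfl

theorem mn_Pf_eq (t : ℝ) : mn (Pf h t) = Real.exp t ^ 2 * sphereMean (radialPart h)
    (Real.exp t) := by
  have h1 : Pf h t = fun ω => Real.exp t ^ 2 * radialPart h (pt t ω) := rfl
  rw [h1, mn_mul]
  rfl

theorem energy_quadratic (t : ℝ) (ω : Metric.sphere (0 : E3) 1) :
    Pf h t ω * kf h t ω + kf h t ω ^ 2 / 4 - Ef h t ω / 2 = Real.exp t ^ 4 / 2 *
      ((∑ i, h (pt t ω) i i) ^ 2 - ∑ i, ∑ j, h (pt t ω) i j ^ 2) := by
  have hκ : ∑ i, h (pt t ω) i i = tangentialTrace h (pt t ω) + radialPart h (pt t ω) := by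
    unfold tangentialTrace; ring
  unfold Pf kf Ef shearSq
  rw [hκ]
  ring

theorem dec_mean (hd : SphericalMetricData ρ₁ u g h) (hdec : DominantEnergy ρ₁ g h)
    (hav : AveragedEnergyCondition ρ₁ u h) (t : ℝ) (ht : ρ₁ < Real.exp t) (hw : 0 < wf1 u t) :
    Real.exp (-wf u t) * |mn (kdf h t) - wf1 u t * (2 * mn (Pf h t) + mn (kf h t)) - 0| ≤
      1 - wf1 u t ^ 2 - 2 * wf2 u t
        + Real.exp (-(2 * wf u t)) * (mn (Pf h t) * mn (kf h t) + mn (kf h t) ^ 2 / 4 - 0 / 2) := by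
  have ck := continuous_kf_at hd ht
  have cP := continuous_Pf_at hd ht
  have cD := continuous_Df_at hd ht
  have cE := continuous_Ef_at hd ht
  have cd := continuous_kdf_at hd ht
  have ik := integrable_sph ck
  have iP := integrable_sph cP
  have iD := integrable_sph cD
  have id' := integrable_sph cd
  have cQ : Continuous fun ω => kdf h t ω - wf1 u t * (2 * Pf h t ω + kf h t ω) - Df h t ω :=
    (cd.sub (continuous_const.mul ((continuous_const.mul cP).add ck))).sub cD
  have cR : Continuous fun ω =>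
      Pf h t ω * kf h t ω + kf h t ω ^ 2 / 4 - Ef h t ω / 2 :=
    ((cP.mul ck).add ((ck.pow 2).div_const 4)).sub (cE.div_const 2)
  -- the mean of the radial momentum
  have e1 : mn (fun ω => kdf h t ω - wf1 u t * (2 * Pf h t ω + kf h t ω) - Df h t ω)
      = mn (kdf h t) - wf1 u t * (2 * mn (Pf h t) + mn (kf h t)) - 0 := by
    have i1 : Integrable (fun ω => 2 * Pf h t ω) sph := integrable_sph (continuous_const.mul cP)
    have i2 : Integrable (fun ω => wf1 u t * (2 * Pf h t ω + kf h t ω)) sph :=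
      integrable_sph (continuous_const.mul ((continuous_const.mul cP).add ck))
    have i3 : Integrable (fun ω => kdf h t ω - wf1 u t * (2 * Pf h t ω + kf h t ω)) sph :=
      integrable_sph (cd.sub (continuous_const.mul ((continuous_const.mul cP).add ck)))
    rw [mn_sub i3 iD, mn_sub id' i2, mn_mul, mn_add i1 ik, mn_mul, mn_Df hd ht]
  -- the mean of the energy density
  have e2 : mn (fun ω => 1 - wf1 u t ^ 2 - 2 * wf2 u t + Real.exp (-(2 * wf u t)) *
      (Pf h t ω * kf h t ω + kf h t ω ^ 2 / 4 - Ef h t ω / 2))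
      = 1 - wf1 u t ^ 2 - 2 * wf2 u t + Real.exp (-(2 * wf u t)) *
        mn (fun ω => Pf h t ω * kf h t ω + kf h t ω ^ 2 / 4 - Ef h t ω / 2) := by
    have i1 : Integrable (fun ω => Real.exp (-(2 * wf u t)) *
        (Pf h t ω * kf h t ω + kf h t ω ^ 2 / 4 - Ef h t ω / 2)) sph :=
      integrable_sph (continuous_const.mul cR)
    rw [mn_add (integrable_const _) i1, mn_const, mn_mul]
  have e3 : mn (fun ω => Real.exp (-wf u t) *
      |kdf h t ω - wf1 u t * (2 * Pf h t ω + kf h t ω) - Df h t ω|)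
      ≤ mn (fun ω => 1 - wf1 u t ^ 2 - 2 * wf2 u t + Real.exp (-(2 * wf u t)) *
      (Pf h t ω * kf h t ω + kf h t ω ^ 2 / 4 - Ef h t ω / 2)) :=
    mn_mono (integrable_sph (continuous_const.mul cQ.abs))
      (integrable_sph (continuous_const.add (continuous_const.mul cR))) (dec_core hd hdec t ht)
  rw [mn_mul, e2] at e3
  have e4 := abs_mn_le (fun ω => kdf h t ω - wf1 u t * (2 * Pf h t ω + kf h t ω) - Df h t ω)
  rw [e1] at e4
  have e5 : mn (fun ω => Pf h t ω * kf h t ω + kf h t ω ^ 2 / 4 - Ef h t ω / 2)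
      ≤ mn (Pf h t) * mn (kf h t) + mn (kf h t) ^ 2 / 4 - 0 / 2 := by
    simp only [energy_quadratic]
    rw [mn_mul, mn_kf_eq, mn_Pf_eq]
    have h1 := hav (Real.exp t) ht ((wf1_pos_iff t).1 hw)
    have h2 : mn (fun ω => (∑ i, h (pt t ω) i i) ^ 2 - ∑ i, ∑ j, h (pt t ω) i j ^ 2)
        = sphereMean (fun x => (∑ i, h x i i) ^ 2 - ∑ i, ∑ j, h x i j ^ 2) (Real.exp t) := rfl
    rw [h2]
    have h3 := mul_le_mul_of_nonneg_left h1 (by positivity : 0 ≤ Real.exp t ^ 4 / 2)
    refine h3.trans (le_of_eq ?_)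
    ring
  have hE := Real.exp_pos (-wf u t)
  have hE2 := Real.exp_pos (-(2 * wf u t))
  calc Real.exp (-wf u t) * |mn (kdf h t) - wf1 u t * (2 * mn (Pf h t) + mn (kf h t)) - 0|
      ≤ Real.exp (-wf u t) * mn (fun ω =>
        |kdf h t ω - wf1 u t * (2 * Pf h t ω + kf h t ω) - Df h t ω|) := by gcongr
    _ ≤ 1 - wf1 u t ^ 2 - 2 * wf2 u t + Real.exp (-(2 * wf u t)) *
        mn (fun ω => Pf h t ω * kf h t ω + kf h t ω ^ 2 / 4 - Ef h t ω / 2) := e3
    _ ≤ _ := by gcongr

/-- The averaging criterion. -/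
theorem exp_le_of_averaged (hd : SphericalMetricData ρ₁ u g h) (hdec : DominantEnergy ρ₁ g h)
    (hav : AveragedEnergyCondition ρ₁ u h) {m : ℝ} (hm : IsTotalMass g m) :
    ∃ t, ρ₁ < Real.exp t ∧ Real.exp (wf u t) ≤ 2 * m ∧ ∀ s, t < s → 0 < wf1 u s := by
  obtain ⟨C, hC⟩ := kf_bound hd
  obtain ⟨T0, hT0, hT0'⟩ := exists_wf1_nonpos hd
  have hlt : ∀ t, T0 ≤ t → ρ₁ < Real.exp t := fun t ht =>
    lt_of_lt_of_le hT0 (Real.exp_le_exp.2 ht)
  have hder : ∀ t, T0 ≤ t → HasDerivAt (fun s => mn (kf h s)) (mn (kdf h t)) t := fun t ht =>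
    hasDerivAt_mean hd (hlt t ht)
  have key := core (X := Unit) (k := fun t _ => mn (kf h t)) (kd := fun t _ => mn (kdf h t))
    (P := fun t _ => mn (Pf h t)) (D := fun _ _ => 0) (E' := fun _ _ => 0) (T0 := T0)
    (m := m) (C := C)
    (fun t ht => hasDerivAt_wf hd.contDiff_u t (hlt t ht))
    (fun t ht => hasDerivAt_wf1 hd.contDiff_u t (hlt t ht)) ?_
    (fun t ht _ => hder t ht) (fun t ht hw _ => dec_mean hd hdec hav t (hlt t ht) hw)
    ∅ isUpperSet_empty (fun t _ _ _ => ⟨(), fun _ => le_rfl, by simp⟩)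
    (fun t _ _ ht => absurd ht (by simp)) (tendsto_wf1 hd hm)
    (tendsto_wf_atTop hd) ?_ (tendsto_mass hd hm) hT0'
  · obtain ⟨t, ht, h1, h2⟩ := key
    exact ⟨t, hlt t ht, h1, h2⟩
  · intro p hp
    have h1 : ContinuousAt (fun s => mn (kf h s)) p.1 := (hder p.1 hp.1).continuousAt
    exact (ContinuousAt.comp (f := fun q : ℝ × Unit => q.1) (g := fun s => mn (kf h s))
      (x := p) h1 continuousAt_fst).continuousWithinAt
  · filter_upwards [hC, eventually_ge_atTop T0] with t ht ht0 _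
    have h1 := abs_mn_le (kf h t)
    have h2 : mn (fun ω => |kf h t ω|) ≤ mn (fun _ => C) :=
      mn_mono (integrable_sph (continuous_kf_at hd (hlt t ht0)).abs) (integrable_const _) ht
    rw [mn_const] at h2
    exact h1.trans h2

end

end Pool.Agent.PenroseSph
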