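import Mathlib

/-!
Coordinate definitions for initial data sets on three-space minus the origin.
-/

open MeasureTheory Filter Topology

namespace Pool.Agent.PenroseSph

/-- Euclidean three-space, with coordinates `x 0, x 1, x 2`. -/
abbrev E3 := EuclideanSpace ℝ (Fin 3)

/-- Covariant 2-tensor fields, given by their matrix of components in the coordinates. -/
abbrev TensorField := E3 → Matrix (Fin 3) (Fin 3) ℝ

/-- The partial derivative `∂_i f` at `x`. -/
noncomputable def pd (i : Fin 3) (f : E3 → ℝ) (x : E3) : ℝ :=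
  fderiv ℝ f x (EuclideanSpace.single i 1)

/-- The Christoffel symbol `Γ^k_ij` of `g`. -/
noncomputable def christoffel (g : TensorField) (k i j : Fin 3) (x : E3) : ℝ :=
  (1 / 2) * ∑ l, (g x)⁻¹ k l * (pd i (fun y => g y j l) x + pd j (fun y => g y i l) x
    - pd l (fun y => g y i j) x)

/-- The Ricci curvature
`R_ij = ∂_k Γ^k_ij - ∂_j Γ^k_ik + Γ^k_kl Γ^l_ij - Γ^k_jl Γ^l_ik` of `g`. -/
noncomputable def ricci (g : TensorField) (i j : Fin 3) (x : E3) : ℝ :=
  ∑ k, (pd k (christoffel g k i j) x - pd j (christoffel g k i k) x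
    + ∑ l, (christoffel g k k l x * christoffel g l i j x
      - christoffel g k j l x * christoffel g l i k x))

/-- The scalar curvature of `g`. -/
noncomputable def scalarCurvature (g : TensorField) (x : E3) : ℝ :=
  ∑ i, ∑ j, (g x)⁻¹ i j * ricci g i j x

/-- The trace of `T` with respect to `g`. -/
noncomputable def traceWith (g T : TensorField) (x : E3) : ℝ :=
  ∑ i, ∑ j, (g x)⁻¹ i j * T x i j

/-- The squared length of `T` with respect to `g`. -/
noncomputable def normSqWith (g T : TensorField) (x : E3) : ℝ :=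
  ∑ i, ∑ j, ∑ k, ∑ l, (g x)⁻¹ i k * (g x)⁻¹ j l * T x i j * T x k l

/-- The covariant derivative `∇_k T_ij` of `T` with respect to `g`. -/
noncomputable def covDeriv (g T : TensorField) (k i j : Fin 3) (x : E3) : ℝ :=
  pd k (fun y => T y i j) x
    - ∑ l, (christoffel g l k i x * T x l j + christoffel g l k j x * T x i l)

/-- The divergence `g^{ik} ∇_k T_ij` of `T` with respect to `g`. -/
noncomputable def divergence (g T : TensorField) (j : Fin 3) (x : E3) : ℝ :=
  ∑ i, ∑ k, (g x)⁻¹ i k * covDeriv g T k i j x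

/-- The energy density `μ` of the initial data `(g, h)`. -/
noncomputable def energyDensity (g h : TensorField) (x : E3) : ℝ :=
  (1 / 2) * (scalarCurvature g x - normSqWith g h x + traceWith g h x ^ 2)

/-- The momentum density `J = div_g (h - (tr_g h) g)` of the initial data `(g, h)`. -/
noncomputable def momentumDensity (g h : TensorField) (j : Fin 3) (x : E3) : ℝ :=
  divergence g (fun y => h y - traceWith g h y • g y) j x

/-- The dominant energy condition `|J|_g ≤ μ` on the region `|x| > ρ₁`. -/
def DominantEnergy (ρ₁ : ℝ) (g h : TensorField) : Prop :=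
  ∀ x : E3, ρ₁ < ‖x‖ →
    Real.sqrt (∑ i, ∑ j, (g x)⁻¹ i j * momentumDensity g h i x * momentumDensity g h j x)
      ≤ energyDensity g h x

/-- The mass integral `(1/16π) ∫ (∂_i g_ij - ∂_j g_ii) ν^j dA` over the coordinate sphere of
radius `ρ` about the origin. -/
noncomputable def massIntegral (g : TensorField) (ρ : ℝ) : ℝ :=
  1 / (16 * Real.pi) * ∫ ω : Metric.sphere (0 : E3) 1,
    (∑ i, ∑ j, (pd i (fun y => g y i j) (ρ • (ω : E3)) - pd j (fun y => g y i i) (ρ • (ω : E3)))
      * (ω : E3) j) * ρ ^ 2 ∂((volume : Measure E3).toSphere)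

/-- `m` is the total mass of the end at infinity. -/
def IsTotalMass (g : TensorField) (m : ℝ) : Prop :=
  Tendsto (massIntegral g) atTop (𝓝 m)

/-- The area of the coordinate sphere `|x| = ρ` in the metric `exp (2 u(|x|)) δ`. -/
noncomputable def sphereArea (u : ℝ → ℝ) (ρ : ℝ) : ℝ :=
  4 * Real.pi * ρ ^ 2 * Real.exp (2 * u ρ)

/-- Initial data `(g, h)` on the region `|x| > ρ₁` of three-space, with a spherically symmetric
metric `g = exp (2 u(|x|)) δ` and a symmetric tensor `h` without any symmetry assumption, and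
with the stated decay at infinity. Moreover, either `ρ₁ = 0` and the areas of the coordinate
spheres tend to infinity at the origin (two-ended data), or some coordinate sphere has
nonpositive mean curvature. -/
structure SphericalMetricData (ρ₁ : ℝ) (u : ℝ → ℝ) (g h : TensorField) : Prop where
  radius_nonneg : 0 ≤ ρ₁
  contDiff_u : ContDiffOn ℝ 2 u (Set.Ioi ρ₁)
  metric_eq : ∀ x : E3, ρ₁ < ‖x‖ → g x = Real.exp (2 * u ‖x‖) • (1 : Matrix (Fin 3) (Fin 3) ℝ)
  contDiff_h : ∀ i j, ContDiffOn ℝ 1 (fun x => h x i j) {x : E3 | ρ₁ < ‖x‖}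
  symm_h : ∀ x : E3, ρ₁ < ‖x‖ → (h x).IsSymm
  decay : ∃ C R : ℝ, ∀ x : E3, R ≤ ‖x‖ → ∀ i j,
    |g x i j - (1 : Matrix (Fin 3) (Fin 3) ℝ) i j| ≤ C / ‖x‖ ∧ |h x i j| ≤ C / ‖x‖ ^ 2
  inner : (ρ₁ = 0 ∧ Tendsto (sphereArea u) (𝓝[>] 0) atTop) ∨
    ∃ ρ, ρ₁ < ρ ∧ 1 / ρ + deriv u ρ ≤ 0

/-- The radial component `h(ν, ν)`, `ν = x/|x|`. -/
noncomputable def radialPart (h : TensorField) (x : E3) : ℝ :=
  ∑ i, ∑ j, h x i j * (x i / ‖x‖) * (x j / ‖x‖)

/-- The trace of `h` over the tangent plane of the coordinate sphere through `x` (with respect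
to the Euclidean metric): `tr h - h(ν, ν)`. -/
noncomputable def tangentialTrace (h : TensorField) (x : E3) : ℝ :=
  (∑ i, h x i i) - radialPart h x

/-- The tangential flux vector `h(ν, ·) - h(ν, ν) ν` of the coordinate spheres. -/
noncomputable def tangentialFlux (h : TensorField) (i : Fin 3) (x : E3) : ℝ :=
  (∑ j, h x i j * (x j / ‖x‖)) - radialPart h x * (x i / ‖x‖)

/-- The squared length of the part of `h` that is not made of `h(ν, ν)` and of the trace over the
tangent plane: `|h|² - h(ν, ν)² - (tangential trace)² / 2`, which is twice the squared length of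
the tangential flux plus the squared length of the trace-free tangential part. -/
noncomputable def shearSq (h : TensorField) (x : E3) : ℝ :=
  (∑ i, ∑ j, h x i j ^ 2) - radialPart h x ^ 2 - tangentialTrace h x ^ 2 / 2

/-- The divergence of the tangential flux vector. -/
noncomputable def fluxDivergence (h : TensorField) (x : E3) : ℝ :=
  ∑ i, pd i (tangentialFlux h i) x

end Pool.Agent.PenroseSph
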