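import Mathlib

/-!
Real-variable core: the quasi-local mass function along the level spheres is monotone.
-/

open Filter Topology Set

namespace Pool.Agent.PenroseSph

/-- A continuous function that is touched from below at every point by a function with
nonnegative derivative is nondecreasing. -/
theorem le_of_touch_below {F : ℝ → ℝ} {a b : ℝ} (hab : a ≤ b) (hF : ContinuousOn F (Icc a b))
    (h : ∀ t ∈ Ico a b, ∃ f : ℝ → ℝ, ∃ d : ℝ, 0 ≤ d ∧ HasDerivAt f d t ∧ f t = F t ∧
      ∀ᶠ s in 𝓝 t, f s ≤ F s) : F a ≤ F b := by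
  have key := image_le_of_liminf_slope_right_le_deriv_boundary (f := fun x => -F x)
    (a := a) (b := b) (B := fun _ => -F a) (B' := fun _ => 0) hF.neg le_rfl continuousOn_const
    (fun x _ => hasDerivWithinAt_const _ _ _) ?_
  · have := key (right_mem_Icc.2 hab)
    linarith
  · intro x hx r hr
    obtain ⟨f, d, hd, hfd, hfx, hfs⟩ := h x hx
    have h1 : Tendsto (fun z => slope (fun y => -f y) x z) (𝓝[>] x) (𝓝 (-d)) := by
      have := (hasDerivAt_iff_tendsto_slope.1 hfd.neg)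
      exact this.mono_left (nhdsWithin_mono _ (fun y hy => ne_of_gt hy))
    have h2 : ∀ᶠ z in 𝓝[>] x, slope (fun y => -f y) x z < r :=
      h1.eventually (Iio_mem_nhds (by linarith))
    apply Eventually.frequently
    filter_upwards [h2, self_mem_nhdsWithin, hfs.filter_mono nhdsWithin_le_nhds] with z hz hxz hfz
    refine lt_of_le_of_lt ?_ hz
    have hxz' : (0 : ℝ) < z - x := sub_pos.2 hxz
    rw [slope_def_field, slope_def_field]
    rw [hfx]
    gcongr

/-- A continuous function that is touched from above at every point by a function with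
nonnegative derivative is nondecreasing. -/
theorem le_of_touch_above {F : ℝ → ℝ} {a b : ℝ} (hab : a ≤ b) (hF : ContinuousOn F (Icc a b))
    (h : ∀ t ∈ Ioc a b, ∃ f : ℝ → ℝ, ∃ d : ℝ, 0 ≤ d ∧ HasDerivAt f d t ∧ f t = F t ∧
      ∀ᶠ s in 𝓝 t, F s ≤ f s) : F a ≤ F b := by
  have key := le_of_touch_below (F := fun s => - F (-s)) (a := -b) (b := -a) (by linarith) ?_ ?_
  · simp only [neg_neg] at key
    linarith
  · refine (hF.comp continuous_neg.continuousOn ?_).neg
    intro s hs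
    simp only [mem_Icc] at hs ⊢
    constructor <;> linarith [hs.1, hs.2]
  · intro t ht
    obtain ⟨f, d, hd, hfd, hft, hfs⟩ := h (-t) (by
      simp only [mem_Ioc, mem_Ico] at ht ⊢
      constructor <;> linarith [ht.1, ht.2])
    refine ⟨fun s => - f (-s), d, hd, ?_, by simp [hft], ?_⟩
    · have h1 : HasDerivAt (fun s => f (-s)) (d * (-1)) t := by
        have := HasDerivAt.comp t (h₂ := f) (h := fun s => -s) hfd (hasDerivAt_neg t)
        exact this
      have h2 := h1.fun_neg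
      simpa using h2
    · have h3 : Tendsto (fun s : ℝ => -s) (𝓝 t) (𝓝 (-t)) := continuous_neg.tendsto t
      filter_upwards [h3.eventually hfs] with s hs
      simpa using hs

/-- Interior version of `le_of_touch_below`. -/
theorem le_of_touch_below' {F : ℝ → ℝ} {a b : ℝ} (hab : a ≤ b) (hF : ContinuousOn F (Icc a b))
    (h : ∀ t ∈ Ioo a b, ∃ f : ℝ → ℝ, ∃ d : ℝ, 0 ≤ d ∧ HasDerivAt f d t ∧ f t = F t ∧
      ∀ᶠ s in 𝓝 t, f s ≤ F s) : F a ≤ F b := by
  rcases hab.eq_or_lt with rfl | hab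
  · exact le_rfl
  have hlim : Tendsto F (𝓝[Ioo a b] a) (𝓝 (F a)) :=
    (hF a (left_mem_Icc.2 hab.le)).mono_left (nhdsWithin_mono _ Ioo_subset_Icc_self)
  rw [nhdsWithin_Ioo_eq_nhdsGT hab] at hlim
  refine le_of_tendsto hlim ?_
  filter_upwards [Ioo_mem_nhdsGT hab] with c hc
  exact le_of_touch_below hc.2.le (hF.mono (Icc_subset_Icc_left hc.1.le))
    fun t ht => h t ⟨lt_of_lt_of_le hc.1 ht.1, ht.2⟩

/-- Interior version of `le_of_touch_above`. -/
theorem le_of_touch_above' {F : ℝ → ℝ} {a b : ℝ} (hab : a ≤ b) (hF : ContinuousOn F (Icc a b))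
    (h : ∀ t ∈ Ioo a b, ∃ f : ℝ → ℝ, ∃ d : ℝ, 0 ≤ d ∧ HasDerivAt f d t ∧ f t = F t ∧
      ∀ᶠ s in 𝓝 t, F s ≤ f s) : F a ≤ F b := by
  rcases hab.eq_or_lt with rfl | hab
  · exact le_rfl
  have hlim : Tendsto F (𝓝[Ioo a b] b) (𝓝 (F b)) :=
    (hF b (right_mem_Icc.2 hab.le)).mono_left (nhdsWithin_mono _ Ioo_subset_Icc_self)
  rw [nhdsWithin_Ioo_eq_nhdsLT hab] at hlim
  refine ge_of_tendsto hlim ?_
  filter_upwards [Ioo_mem_nhdsLT hab] with c hc
  exact le_of_touch_above hc.1.le (hF.mono (Icc_subset_Icc_right hc.2.le))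
    fun t ht => h t ⟨ht.1, lt_of_le_of_lt ht.2 hc.2⟩

variable {X : Type*}

/-- The mass function. -/
noncomputable def massFn (w w1 : ℝ → ℝ) (K : ℝ → ℝ) (t : ℝ) : ℝ :=
  Real.exp (w t) * (1 - w1 t ^ 2) + Real.exp (-w t) * K t ^ 2 / 4

theorem hasDerivAt_massFn {w w1 w2 k kd : ℝ → ℝ} {t : ℝ}
    (hw : HasDerivAt w (w1 t) t) (hw1 : HasDerivAt w1 (w2 t) t)
    (hk : HasDerivAt k (kd t) t) :
    HasDerivAt (massFn w w1 k)
      (Real.exp (w t) * w1 t * (1 - w1 t ^ 2 - 2 * w2 t)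
        - Real.exp (-w t) * w1 t * k t ^ 2 / 4 + Real.exp (-w t) * k t * kd t / 2) t := by
  unfold massFn
  have h1 := (hw.exp).mul ((hw1.pow 2).const_sub 1)
  have h2 := ((hw.neg.exp).mul (hk.pow 2)).div_const 4
  have h3 := h1.add h2
  refine h3.congr_deriv ?_
  simp only [Pi.neg_apply, Pi.pow_apply]
  push_cast
  ring

/-- Nonnegativity of the derivative. -/
theorem massFn_deriv_nonneg {w w1 w2 k kd P D E' : ℝ}
    (hdec : Real.exp (-w) * |kd - w1 * (2 * P + k) - D| ≤
      1 - w1 ^ 2 - 2 * w2 + Real.exp (-(2 * w)) * (P * k + k ^ 2 / 4 - E' / 2))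
    (hpos : Real.exp (-w) * |k| / 2 ≤ w1) (hD : 0 ≤ k * D + w1 * E') :
    0 ≤ Real.exp w * w1 * (1 - w1 ^ 2 - 2 * w2)
        - Real.exp (-w) * w1 * k ^ 2 / 4 + Real.exp (-w) * k * kd / 2 := by
  set Q := kd - w1 * (2 * P + k) - D with hQ
  have e1 : Real.exp w * Real.exp (-w) = 1 := by rw [← Real.exp_add]; simp
  have e2 : Real.exp (-(2 * w)) = Real.exp (-w) * Real.exp (-w) := by
    rw [← Real.exp_add]; ring_nf
  have hE : 0 < Real.exp (-w) := Real.exp_pos _
  have hE' : 0 < Real.exp w := Real.exp_pos _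
  set E := Real.exp (-w)
  set G := Real.exp w
  have hw1 : 0 ≤ w1 := le_trans (by positivity) hpos
  have hkd : kd = Q + w1 * (2 * P + k) + D := by rw [hQ]; ring
  have id1 : G * w1 * (1 - w1 ^ 2 - 2 * w2) - E * w1 * k ^ 2 / 4 + E * k * kd / 2
      = G * w1 * (1 - w1 ^ 2 - 2 * w2 + E * E * (P * k + k ^ 2 / 4 - E' / 2)) + E * k * Q / 2
        + E * (k * D + w1 * E') / 2 := by
    have : G * w1 * (1 - w1 ^ 2 - 2 * w2 + E * E * (P * k + k ^ 2 / 4 - E' / 2))
        = G * w1 * (1 - w1 ^ 2 - 2 * w2)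
          + (G * E) * (w1 * E * (P * k + k ^ 2 / 4 - E' / 2)) := by ring
    rw [this, e1, hkd]
    ring
  rw [id1]
  rw [e2] at hdec
  have h1 : G * w1 * (E * |Q|) ≤
      G * w1 * (1 - w1 ^ 2 - 2 * w2 + E * E * (P * k + k ^ 2 / 4 - E' / 2)) :=
    mul_le_mul_of_nonneg_left hdec (by positivity)
  have h2 : G * w1 * (E * |Q|) = w1 * |Q| := by
    have : G * w1 * (E * |Q|) = (G * E) * (w1 * |Q|) := by ring
    rw [this, e1, one_mul]
  have h3 : -(E * |k| / 2 * |Q|) ≤ E * k * Q / 2 := by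
    have := neg_abs_le (E * k * Q / 2)
    have h4 : |E * k * Q / 2| = E * |k| / 2 * |Q| := by
      rw [abs_div, abs_mul, abs_mul, abs_of_pos hE]
      simp; ring
    rw [h4] at this
    exact this
  have h5 : E * |k| / 2 * |Q| ≤ w1 * |Q| := mul_le_mul_of_nonneg_right hpos (abs_nonneg _)
  have h6 : 0 ≤ E * (k * D + w1 * E') / 2 := by positivity
  linarith

/-- Location of the outermost horizon-like radius. -/
theorem exists_last_zero {φ : ℝ → ℝ} {T0 : ℝ} (hφ : ContinuousOn φ (Ici T0)) (h0 : φ T0 ≤ 0)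
    (h1 : ∀ᶠ t in atTop, 0 < φ t) : ∃ t0, T0 ≤ t0 ∧ φ t0 = 0 ∧ ∀ t, t0 < t → 0 < φ t := by
  obtain ⟨T, hT⟩ := eventually_atTop.1 h1
  set Z : Set ℝ := {t | t ∈ Ici T0 ∧ φ t ≤ 0} with hZ
  have hZc : IsClosed Z := by
    have := hφ.preimage_isClosed_of_isClosed isClosed_Ici (isClosed_Iic (a := (0 : ℝ)))
    exact this
  have hZb : BddAbove Z := ⟨T, fun t ht => by
    by_contra hlt
    push Not at hlt
    exact absurd (hT t hlt.le) (not_lt.2 ht.2)⟩
  have hZn : T0 ∈ Z := ⟨self_mem_Ici, h0⟩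
  have hle : T0 ≤ sSup Z := le_csSup hZb hZn
  have hgt : ∀ t, sSup Z < t → 0 < φ t := fun t ht => by
    by_contra hlt
    push Not at hlt
    exact absurd (le_csSup hZb (show t ∈ Z from ⟨hle.trans ht.le, hlt⟩)) (not_le.2 ht)
  refine ⟨sSup Z, hle, ?_, hgt⟩
  have hmem : sSup Z ∈ Z := hZc.csSup_mem ⟨T0, hZn⟩ hZb
  refine le_antisymm hmem.2 ?_
  have hlim : Tendsto φ (𝓝[>] (sSup Z)) (𝓝 (φ (sSup Z))) :=
    (hφ _ hle).mono_left (nhdsWithin_mono _ fun y hy => hle.trans (le_of_lt hy))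
  exact ge_of_tendsto hlim (eventually_nhdsWithin_of_forall fun t ht => (hgt t ht).le)

variable [TopologicalSpace X] [CompactSpace X] [Nonempty X]

theorem exists_continuous_max {k : ℝ → X → ℝ} (hk : Continuous (Function.uncurry k)) :
    ∃ K : ℝ → ℝ, Continuous K ∧ (∀ t ω, |k t ω| ≤ K t) ∧ ∀ t, ∃ ω, |k t ω| = K t := by
  have hk' : Continuous (Function.uncurry fun t ω => |k t ω|) := hk.abs
  refine ⟨fun t => sSup ((fun ω => |k t ω|) '' univ), isCompact_univ.continuous_sSup hk', ?_, ?_⟩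
  · intro t ω
    have hc : Continuous fun ω => |k t ω| := hk'.comp (Continuous.prodMk_right t)
    exact le_csSup (isCompact_univ.image hc).bddAbove ⟨ω, mem_univ _, rfl⟩
  · intro t
    have hc : Continuous fun ω => |k t ω| := hk'.comp (Continuous.prodMk_right t)
    obtain ⟨ω, -, hω⟩ := (isCompact_univ.image hc).sSup_mem (univ_nonempty.image _)
    exact ⟨ω, hω⟩

theorem exists_continuous_min {k : ℝ → X → ℝ} (hk : Continuous (Function.uncurry k)) :
    ∃ K : ℝ → ℝ, Continuous K ∧ (∀ t ω, K t ≤ |k t ω|) ∧ ∀ t, ∃ ω, |k t ω| = K t := by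
  have hk' : Continuous (Function.uncurry fun t ω => |k t ω|) := hk.abs
  refine ⟨fun t => sInf ((fun ω => |k t ω|) '' univ), isCompact_univ.continuous_sInf hk', ?_, ?_⟩
  · intro t ω
    have hc : Continuous fun ω => |k t ω| := hk'.comp (Continuous.prodMk_right t)
    exact csInf_le (isCompact_univ.image hc).bddBelow ⟨ω, mem_univ _, rfl⟩
  · intro t
    have hc : Continuous fun ω => |k t ω| := hk'.comp (Continuous.prodMk_right t)
    obtain ⟨ω, -, hω⟩ := (isCompact_univ.image hc).sInf_mem (univ_nonempty.image _)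
    exact ⟨ω, hω⟩

theorem continuous_clamp {k : ℝ → X → ℝ} {T0 : ℝ}
    (hk : ContinuousOn (Function.uncurry k) (Ici T0 ×ˢ univ)) :
    Continuous (Function.uncurry fun t ω => k (max t T0) ω) := by
  have h1 : Continuous fun p : ℝ × X => (max p.1 T0, p.2) := by fun_prop
  exact hk.comp_continuous h1 fun p =>
    ⟨show T0 ≤ max p.1 T0 from le_max_right p.1 T0, mem_univ _⟩

theorem massFn_le_massFn {w w1 K K' : ℝ → ℝ} {t : ℝ} (h0 : 0 ≤ K t) (h : K t ≤ K' t) :
    massFn w w1 K t ≤ massFn w w1 K' t := by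
  unfold massFn
  have : K t ^ 2 ≤ K' t ^ 2 := pow_le_pow_left₀ h0 h 2
  gcongr

theorem massFn_at_zero {w w1 K : ℝ → ℝ} {t : ℝ} (h : w1 t - Real.exp (-w t) * K t / 2 = 0) :
    massFn w w1 K t = Real.exp (w t) := by
  have h1 : w1 t = Real.exp (-w t) * K t / 2 := by linarith
  have e1 : Real.exp (w t) * Real.exp (-w t) = 1 := by rw [← Real.exp_add]; simp
  unfold massFn
  rw [h1]
  have : Real.exp (w t) * (1 - (Real.exp (-w t) * K t / 2) ^ 2) + Real.exp (-w t) * K t ^ 2 / 4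
      = Real.exp (w t) + Real.exp (-w t) * K t ^ 2 / 4
        * (1 - Real.exp (w t) * Real.exp (-w t)) := by ring
  rw [this, e1]
  ring

theorem continuousOn_massFn {w w1 K : ℝ → ℝ} {S : Set ℝ} (hw : ContinuousOn w S)
    (hw1 : ContinuousOn w1 S) (hK : ContinuousOn K S) : ContinuousOn (massFn w w1 K) S := by
  unfold massFn
  fun_prop

theorem tendsto_massFn {w w1 K : ℝ → ℝ} {m C : ℝ} (hwtop : Tendsto w atTop atTop)
    (hK : ∀ᶠ t in atTop, |K t| ≤ C)
    (hm : Tendsto (fun t => Real.exp (w t) * (1 - w1 t ^ 2)) atTop (𝓝 (2 * m))) :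
    Tendsto (massFn w w1 K) atTop (𝓝 (2 * m)) := by
  have h1 : Tendsto (fun t => Real.exp (-w t)) atTop (𝓝 0) :=
    Real.tendsto_exp_neg_atTop_nhds_zero.comp hwtop
  have h2 : Tendsto (fun t => Real.exp (-w t) * K t ^ 2 / 4) atTop (𝓝 0) := by
    have hb : Tendsto (fun t => Real.exp (-w t) * (C ^ 2 / 4)) atTop (𝓝 (0 * (C ^ 2 / 4))) :=
      h1.mul_const _
    rw [zero_mul] at hb
    refine squeeze_zero' (Eventually.of_forall fun t => by positivity) ?_ hb
    filter_upwards [hK] with t ht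
    have : K t ^ 2 ≤ C ^ 2 := by
      rw [← sq_abs (K t)]
      exact pow_le_pow_left₀ (abs_nonneg _) ht 2
    have h3 : 0 < Real.exp (-w t) := Real.exp_pos _
    rw [mul_div_assoc]
    gcongr
  have := hm.add h2
  rw [add_zero] at this
  exact this

/-- The core theorem. For parameters outside `S` the sign condition holds at some point of
minimal `|k|`, for parameters in the upper set `S` at some point of maximal `|k|`. -/
theorem core {w w1 w2 : ℝ → ℝ} {k kd P D E' : ℝ → X → ℝ} {m C T0 : ℝ}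
    (hw : ∀ t, T0 ≤ t → HasDerivAt w (w1 t) t) (hw1 : ∀ t, T0 ≤ t → HasDerivAt w1 (w2 t) t)
    (hkc : ContinuousOn (Function.uncurry k) (Ici T0 ×ˢ univ))
    (hk : ∀ t, T0 ≤ t → ∀ ω, HasDerivAt (fun s => k s ω) (kd t ω) t)
    (hdec : ∀ t, T0 ≤ t → 0 < w1 t → ∀ ω,
      Real.exp (-w t) * |kd t ω - w1 t * (2 * P t ω + k t ω) - D t ω| ≤
      1 - w1 t ^ 2 - 2 * w2 t
        + Real.exp (-(2 * w t)) * (P t ω * k t ω + k t ω ^ 2 / 4 - E' t ω / 2))
    (S : Set ℝ) (hS : IsUpperSet S)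
    (hmin : ∀ t, T0 ≤ t → 0 < w1 t → t ∉ S →
      ∃ ω, (∀ ω', |k t ω| ≤ |k t ω'|) ∧ 0 ≤ k t ω * D t ω + w1 t * E' t ω)
    (hmax : ∀ t, T0 ≤ t → 0 < w1 t → t ∈ S →
      ∃ ω, (∀ ω', |k t ω'| ≤ |k t ω|) ∧ 0 ≤ k t ω * D t ω + w1 t * E' t ω)
    (hw1top : Tendsto w1 atTop (𝓝 1)) (hwtop : Tendsto w atTop atTop)
    (hkb : ∀ᶠ t in atTop, ∀ ω, |k t ω| ≤ C)
    (hm : Tendsto (fun t => Real.exp (w t) * (1 - w1 t ^ 2)) atTop (𝓝 (2 * m)))
    (h0 : w1 T0 ≤ 0) : ∃ t0, T0 ≤ t0 ∧ Real.exp (w t0) ≤ 2 * m ∧ ∀ t, t0 < t → 0 < w1 t := by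
  obtain ⟨K, hKc, hKle', hKe'⟩ := exists_continuous_max (continuous_clamp hkc)
  obtain ⟨L, hLc, hLle', hLe'⟩ := exists_continuous_min (continuous_clamp hkc)
  have hKle : ∀ t, T0 ≤ t → ∀ ω, |k t ω| ≤ K t := fun t ht ω => by
    have := hKle' t ω; rwa [max_eq_left ht] at this
  have hKe : ∀ t, T0 ≤ t → ∃ ω, |k t ω| = K t := fun t ht => by
    have := hKe' t; rwa [max_eq_left ht] at this
  have hLle : ∀ t, T0 ≤ t → ∀ ω, L t ≤ |k t ω| := fun t ht ω => by
    have := hLle' t ω; rwa [max_eq_left ht] at this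
  have hLe : ∀ t, T0 ≤ t → ∃ ω, |k t ω| = L t := fun t ht => by
    have := hLe' t; rwa [max_eq_left ht] at this
  have hL0 : ∀ t, 0 ≤ L t := fun t => by obtain ⟨ω, hω⟩ := hLe' t; rw [← hω]; exact abs_nonneg _
  have hLK : ∀ t, L t ≤ K t := fun t => by
    obtain ⟨ω, hω⟩ := hLe' t; rw [← hω]; exact hKle' t ω
  have hwc : ContinuousOn w (Ici T0) := fun t ht => (hw t ht).continuousAt.continuousWithinAt
  have hw1c : ContinuousOn w1 (Ici T0) := fun t ht => (hw1 t ht).continuousAt.continuousWithinAt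
  have hKb : ∀ᶠ t in atTop, |K t| ≤ C := by
    filter_upwards [hkb, eventually_ge_atTop T0] with t ht ht0
    obtain ⟨ω, hω⟩ := hKe t ht0
    rw [← hω, abs_abs]; exact ht ω
  have hLb : ∀ᶠ t in atTop, |L t| ≤ C := by
    filter_upwards [hkb, eventually_ge_atTop T0] with t ht ht0
    obtain ⟨ω, hω⟩ := hLe t ht0
    rw [← hω, abs_abs]; exact ht ω
  have hFK := tendsto_massFn hwtop hKb hm
  have hFL := tendsto_massFn hwtop hLb hm
  have hFKc := continuousOn_massFn hwc hw1c hKc.continuousOn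
  have hFLc := continuousOn_massFn hwc hw1c hLc.continuousOn
  have hexp : Tendsto (fun t => Real.exp (-w t)) atTop (𝓝 0) :=
    Real.tendsto_exp_neg_atTop_nhds_zero.comp hwtop
  have hevK : ∀ᶠ t in atTop, 0 < w1 t - Real.exp (-w t) * K t / 2 := by
    have h1 : Tendsto (fun t => Real.exp (-w t) * K t / 2) atTop (𝓝 0) := by
      have hb : Tendsto (fun t => Real.exp (-w t) * (C / 2)) atTop (𝓝 (0 * (C / 2))) :=
        hexp.mul_const _
      rw [zero_mul] at hb
      refine squeeze_zero' ?_ ?_ hb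
      · exact Eventually.of_forall fun t => by
          have := (hL0 t).trans (hLK t)
          positivity
      · filter_upwards [hKb] with t ht
        have h3 : 0 < Real.exp (-w t) := Real.exp_pos _
        have := le_trans (le_abs_self _) ht
        rw [mul_div_assoc]
        gcongr
    have h2 := hw1top.sub h1
    rw [sub_zero] at h2
    exact h2.eventually (Ioi_mem_nhds (by norm_num))
  have hcK : ContinuousOn (fun t => w1 t - Real.exp (-w t) * K t / 2) (Ici T0) := by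
    have := hKc.continuousOn (s := Ici T0)
    fun_prop
  have hcL : ContinuousOn (fun t => w1 t - Real.exp (-w t) * L t / 2) (Ici T0) := by
    have := hLc.continuousOn (s := Ici T0)
    fun_prop
  have hevL : ∀ᶠ t in atTop, 0 < w1 t - Real.exp (-w t) * L t / 2 := by
    filter_upwards [hevK] with t ht
    have := hLK t
    have h3 : 0 < Real.exp (-w t) := Real.exp_pos _
    have : Real.exp (-w t) * L t ≤ Real.exp (-w t) * K t := by gcongr
    linarith
  obtain ⟨a, hTa, ha0, ha⟩ := exists_last_zero hcK (by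
    have := (hL0 T0).trans (hLK T0)
    have : 0 ≤ Real.exp (-w T0) * K T0 / 2 := by positivity
    linarith) hevK
  obtain ⟨b, hTb, hb0, hb⟩ := exists_last_zero hcL (by
    have := (hL0 T0)
    have : 0 ≤ Real.exp (-w T0) * L T0 / 2 := by positivity
    linarith) hevL
  have hba : b ≤ a := by
    by_contra hlt
    push Not at hlt
    have h1 := ha b hlt
    have h3 : 0 < Real.exp (-w b) := Real.exp_pos _
    have h2 := hLK b
    have : Real.exp (-w b) * L b ≤ Real.exp (-w b) * K b := by gcongr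
    linarith
  have hposK : ∀ t, a < t → 0 < w1 t := fun t ht => by
    have h1 := ha t ht
    have := (hL0 t).trans (hLK t)
    have : 0 ≤ Real.exp (-w t) * K t / 2 := by positivity
    linarith
  have hposL : ∀ t, b < t → 0 < w1 t := fun t ht => by
    have h1 := hb t ht
    have := hL0 t
    have : 0 ≤ Real.exp (-w t) * L t / 2 := by positivity
    linarith
  -- the phase of maximal points
  have phaseK : ∀ c d, a ≤ c → c ≤ d → (∀ t, c < t → t ∈ S) →
      massFn w w1 K c ≤ massFn w w1 K d := by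
    intro c d hac hcd hcS
    refine le_of_touch_below' hcd (hFKc.mono fun t ht => (hTa.trans hac).trans ht.1) ?_
    intro t ht
    have hTt : T0 < t := lt_of_le_of_lt (hTa.trans hac) ht.1
    obtain ⟨ω, hω, hDω⟩ := hmax t hTt.le (hposK t (lt_of_le_of_lt hac ht.1)) (hcS t ht.1)
    have hωK : |k t ω| = K t := by
      obtain ⟨ω', hω'⟩ := hKe t hTt.le
      exact le_antisymm (hKle t hTt.le ω) (hω' ▸ hω ω')
    refine ⟨massFn w w1 (fun s => k s ω), _, ?_,
      hasDerivAt_massFn (kd := fun s => kd s ω) (hw t hTt.le) (hw1 t hTt.le) (hk t hTt.le ω),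
      ?_, ?_⟩
    · refine massFn_deriv_nonneg
        (hdec t hTt.le (hposK t (lt_of_le_of_lt hac ht.1)) ω) ?_ hDω
      have := ha t (lt_of_le_of_lt hac ht.1)
      rw [hωK]; linarith
    · unfold massFn
      simp only
      rw [← sq_abs (k t ω), hωK]
    · filter_upwards [Ioi_mem_nhds hTt] with s hs
      unfold massFn
      simp only
      rw [← sq_abs (k s ω)]
      have : |k s ω| ^ 2 ≤ K s ^ 2 := pow_le_pow_left₀ (abs_nonneg _) (hKle s (le_of_lt hs) ω) 2
      gcongr
  have phaseL : ∀ d, b ≤ d → (∀ t, t < d → t ∉ S) →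
      massFn w w1 L b ≤ massFn w w1 L d := by
    intro d hbd hcS
    refine le_of_touch_above' hbd (hFLc.mono fun t ht => hTb.trans ht.1) ?_
    intro t ht
    have hTt : T0 < t := lt_of_le_of_lt hTb ht.1
    obtain ⟨ω, hω, hDω⟩ := hmin t hTt.le (hposL t ht.1) (hcS t ht.2)
    have hωL : |k t ω| = L t := by
      obtain ⟨ω', hω'⟩ := hLe t hTt.le
      exact le_antisymm (hω' ▸ hω ω') (hLle t hTt.le ω)
    refine ⟨massFn w w1 (fun s => k s ω), _, ?_,
      hasDerivAt_massFn (kd := fun s => kd s ω) (hw t hTt.le) (hw1 t hTt.le) (hk t hTt.le ω),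
      ?_, ?_⟩
    · refine massFn_deriv_nonneg (hdec t hTt.le (hposL t ht.1) ω) ?_ hDω
      have := hb t ht.1
      rw [hωL]; linarith
    · unfold massFn
      simp only
      rw [← sq_abs (k t ω), hωL]
    · filter_upwards [Ioi_mem_nhds hTt] with s hs
      unfold massFn
      simp only
      rw [← sq_abs (k s ω)]
      have : L s ^ 2 ≤ |k s ω| ^ 2 := pow_le_pow_left₀ (hL0 s) (hLle s (le_of_lt hs) ω) 2
      gcongr
  by_cases hA : ∀ t, a < t → t ∈ S
  · refine ⟨a, hTa, ?_, hposK⟩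
    rw [← massFn_at_zero ha0]
    refine ge_of_tendsto hFK ?_
    filter_upwards [eventually_ge_atTop a] with t ht
    exact phaseK a t le_rfl ht hA
  · push Not at hA
    obtain ⟨c, hac, hcS⟩ := hA
    refine ⟨b, hTb, ?_, hposL⟩
    rw [← massFn_at_zero hb0]
    by_cases hbd : BddAbove Sᶜ
    · set s0 := sSup Sᶜ with hs0
      have hcs : c ≤ s0 := le_csSup hbd hcS
      have h1 : ∀ t, t < s0 → t ∉ S := by
        intro t ht hmem
        obtain ⟨t', ht', htt'⟩ := exists_lt_of_lt_csSup ⟨c, hcS⟩ ht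
        exact ht' (hS htt'.le hmem)
      have h2 : ∀ t, s0 < t → t ∈ S := by
        intro t ht
        by_contra hmem
        exact absurd (le_csSup hbd hmem) (not_le.2 ht)
      calc massFn w w1 L b ≤ massFn w w1 L s0 := phaseL s0 (by linarith) h1
        _ ≤ massFn w w1 K s0 := massFn_le_massFn (hL0 _) (hLK _)
        _ ≤ 2 * m := by
          refine ge_of_tendsto hFK ?_
          filter_upwards [eventually_ge_atTop s0] with t ht
          exact phaseK s0 t (by linarith) ht h2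
    · have h1 : ∀ t, t ∉ S := by
        intro t hmem
        exact hbd ⟨t, fun t' ht' => by
          by_contra hlt
          push Not at hlt
          exact ht' (hS hlt.le hmem)⟩
      refine ge_of_tendsto hFL ?_
      filter_upwards [eventually_ge_atTop b] with t ht
      exact phaseL t ht fun t' _ => h1 t'

end Pool.Agent.PenroseSph
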