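import Pool.Agent.PenroseSph.Defs

/-! The extremal flux condition. -/

namespace Pool.Agent.PenroseSph

/-- The extremal flux condition on the region `|x| > ρ₁`. On every coordinate sphere `|x| = ρ` of
positive mean curvature there is a point `x` at which
`tangentialTrace * div (tangential flux) + (1/ρ + u'(ρ)) * shearSq ≥ 0`
and at which `|tangentialTrace|` is minimal on the sphere, if the radius lies below a threshold,
respectively maximal on the sphere, if the radius lies above it (the set `S` of radii above the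
threshold may be empty or contain all radii). -/
def ExtremalFluxCondition (ρ₁ : ℝ) (u : ℝ → ℝ) (h : TensorField) : Prop :=
  ∃ S : Set ℝ, IsUpperSet S ∧ ∀ ρ : ℝ, ρ₁ < ρ → 0 < 1 / ρ + deriv u ρ →
    ∃ x : E3, ‖x‖ = ρ ∧
      0 ≤ tangentialTrace h x * fluxDivergence h x + (1 / ρ + deriv u ρ) * shearSq h x ∧
      (ρ ∉ S → ∀ y : E3, ‖y‖ = ρ → |tangentialTrace h x| ≤ |tangentialTrace h y|) ∧
      (ρ ∈ S → ∀ y : E3, ‖y‖ = ρ → |tangentialTrace h y| ≤ |tangentialTrace h x|)

end Pool.Agent.PenroseSph
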