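import Pool.Agent.PenroseSph.Geom
import Pool.Agent.PenroseSph.Core

/-! From the geometric data to the real-variable core. -/

open MeasureTheory Filter Topology

namespace Pool.Agent.PenroseSph

section

variable {ρ₁ : ℝ} {u : ℝ → ℝ} {g h : TensorField}

/-- first derivative of `u` -/
noncomputable def du (u : ℝ → ℝ) : ℝ → ℝ := deriv u

/-- second derivative of `u` -/
noncomputable def ddu (u : ℝ → ℝ) : ℝ → ℝ := deriv (deriv u)

theorem hasDerivAt_u (hu : ContDiffOn ℝ 2 u (Set.Ioi ρ₁)) (ρ : ℝ) (hρ : ρ₁ < ρ) :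
    HasDerivAt u (du u ρ) ρ :=
  ((hu.differentiableOn (by norm_num)).differentiableAt (Ioi_mem_nhds hρ)).hasDerivAt

theorem hasDerivAt_du (hu : ContDiffOn ℝ 2 u (Set.Ioi ρ₁)) (ρ : ℝ) (hρ : ρ₁ < ρ) :
    HasDerivAt (du u) (ddu u ρ) ρ := by
  have h1 : ContDiffOn ℝ 1 (deriv u) (Set.Ioi ρ₁) :=
    hu.deriv_of_isOpen isOpen_Ioi (by norm_num)
  exact ((h1.differentiableOn (by norm_num)).differentiableAt (Ioi_mem_nhds hρ)).hasDerivAt

/-- logarithmic radius -/
noncomputable def wf (u : ℝ → ℝ) (t : ℝ) : ℝ := t + u (Real.exp t)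

noncomputable def wf1 (u : ℝ → ℝ) (t : ℝ) : ℝ := 1 + Real.exp t * du u (Real.exp t)

noncomputable def wf2 (u : ℝ → ℝ) (t : ℝ) : ℝ :=
  Real.exp t * du u (Real.exp t) + Real.exp t ^ 2 * ddu u (Real.exp t)

theorem hasDerivAt_wf (hu : ContDiffOn ℝ 2 u (Set.Ioi ρ₁)) (t : ℝ) (ht : ρ₁ < Real.exp t) :
    HasDerivAt (wf u) (wf1 u t) t := by
  have h1 := (hasDerivAt_u hu _ ht).comp t (Real.hasDerivAt_exp t)
  have h2 := (hasDerivAt_id t).add h1
  refine h2.congr_deriv ?_
  unfold wf1; ring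

theorem hasDerivAt_wf1 (hu : ContDiffOn ℝ 2 u (Set.Ioi ρ₁)) (t : ℝ) (ht : ρ₁ < Real.exp t) :
    HasDerivAt (wf1 u) (wf2 u t) t := by
  have h1 := (hasDerivAt_du hu _ ht).comp t (Real.hasDerivAt_exp t)
  have h2 := ((Real.hasDerivAt_exp t).mul h1).const_add 1
  refine h2.congr_deriv ?_
  simp only [wf2, Function.comp_apply]
  ring

end

/-- The point `exp t • ω`. -/
noncomputable def pt (t : ℝ) (ω : Metric.sphere (0 : E3) 1) : E3 := Real.exp t • (ω : E3)

theorem norm_pt (t : ℝ) (ω : Metric.sphere (0 : E3) 1) : ‖pt t ω‖ = Real.exp t := by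
  unfold pt
  rw [norm_smul, Real.norm_eq_abs, Real.abs_exp, norm_eq_of_mem_sphere ω, mul_one]

theorem pt_ne_zero (t : ℝ) (ω : Metric.sphere (0 : E3) 1) : pt t ω ≠ 0 := by
  rw [← norm_pos_iff, norm_pt]; exact Real.exp_pos t

theorem pt_div_norm (t : ℝ) (ω : Metric.sphere (0 : E3) 1) (i : Fin 3) :
    pt t ω i / ‖pt t ω‖ = (ω : E3) i := by
  rw [norm_pt]
  unfold pt
  have := (Real.exp_pos t).ne'
  simp only [PiLp.smul_apply, smul_eq_mul]
  field_simp

theorem continuous_pt : Continuous (Function.uncurry pt) := by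
  unfold pt
  fun_prop

theorem hasDerivAt_pt (t : ℝ) (ω : Metric.sphere (0 : E3) 1) :
    HasDerivAt (fun s => pt s ω) (pt t ω) t := by
  unfold pt
  exact (Real.hasDerivAt_exp t).smul_const (ω : E3)

theorem hasDerivAt_comp_pt {f : E3 → ℝ} {t : ℝ} {ω : Metric.sphere (0 : E3) 1}
    (hf : DifferentiableAt ℝ f (pt t ω)) :
    HasDerivAt (fun s => f (pt s ω)) (Real.exp t * rd f (pt t ω)) t := by
  have h1 := hf.hasFDerivAt.comp_hasDerivAt t (hasDerivAt_pt t ω)
  refine h1.congr_deriv ?_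
  have h2 : pt t ω = ∑ i, (pt t ω i) • (EuclideanSpace.single i (1 : ℝ) : E3) := by
    ext j
    simp [Finset.sum_apply, Pi.single_apply]
  conv_lhs => rw [h2]
  rw [map_sum]
  unfold rd
  rw [Finset.mul_sum]
  refine Finset.sum_congr rfl fun i _ => ?_
  rw [← h2, map_smul, pt_div_norm, smul_eq_mul]
  have : pt t ω i = Real.exp t * (ω : E3) i := rfl
  rw [this]
  unfold pd
  ring

/-- The surface measure of the unit sphere. -/
noncomputable abbrev sph : Measure (Metric.sphere (0 : E3) 1) := (volume : Measure E3).toSphere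

theorem sph_univ : sph.real Set.univ = 4 * Real.pi := by
  unfold sph
  rw [Measure.toSphere_real_apply_univ, Measure.real, EuclideanSpace.volume_ball_fin_three]
  simp
  have : (0 : ℝ) ≤ Real.pi * 4 / 3 := by positivity
  rw [ENNReal.toReal_ofReal this]
  ring

section

variable {ρ₁ : ℝ} {u : ℝ → ℝ} {g h : TensorField}

theorem lt_norm_pt {t : ℝ} (ht : ρ₁ < Real.exp t) (ω : Metric.sphere (0 : E3) 1) :
    ρ₁ < ‖pt t ω‖ := by rwa [norm_pt]

theorem massIntegral_eq (hd : SphericalMetricData ρ₁ u g h) (t : ℝ) (ht : ρ₁ < Real.exp t) :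
    massIntegral g (Real.exp t) = -(Real.exp t ^ 2 * du u (Real.exp t) *
      Real.exp (2 * u (Real.exp t))) := by
  unfold massIntegral
  have h1 : ∀ ω : Metric.sphere (0 : E3) 1,
      (∑ i, ∑ j, (pd i (fun y => g y i j) (Real.exp t • (ω : E3))
        - pd j (fun y => g y i i) (Real.exp t • (ω : E3))) * (ω : E3) j) * Real.exp t ^ 2
      = -4 * du u (Real.exp t) * Real.exp (2 * u (Real.exp t)) * Real.exp t ^ 2 := by
    intro ω
    have hx := lt_norm_pt ht ω
    have h2 := fun k i j => pd_metric hd.radius_nonneg (hasDerivAt_u hd.contDiff_u)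
      hd.metric_eq hx k i j
    have h3 := sum_nu_sq (pt_ne_zero t ω)
    simp only [pt_div_norm] at h3
    have h4 : ∀ k i j, pd k (fun y => g y i j) (Real.exp t • (ω : E3))
      = 2 * Real.exp (2 * u (Real.exp t)) * (du u (Real.exp t) * (ω : E3) k) * dl i j := by
      intro k i j
      have := h2 k i j
      rw [gr, pt_div_norm, norm_pt] at this
      exact this
    simp only [h4, Fin.sum_univ_three, dl, Fin.isValue, ↓reduceIte, Fin.reduceEq, zero_ne_one,
      one_ne_zero]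
    rw [Fin.sum_univ_three] at h3
    linear_combination (-4 * du u (Real.exp t) * Real.exp (2 * u (Real.exp t))
      * Real.exp t ^ 2) * h3
  simp only [h1]
  rw [integral_const, sph_univ]
  have := Real.pi_ne_zero
  simp only [smul_eq_mul]
  field_simp
  ring

theorem eventually_lt_exp (a : ℝ) : ∀ᶠ t in atTop, a < Real.exp t :=
  Real.tendsto_exp_atTop.eventually (eventually_gt_atTop a)

theorem tendsto_exp_two_u (hd : SphericalMetricData ρ₁ u g h) :
    Tendsto (fun t => Real.exp (2 * u (Real.exp t))) atTop (𝓝 1) := by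
  obtain ⟨C, R, hC⟩ := hd.decay
  have ω : Metric.sphere (0 : E3) 1 := ⟨EuclideanSpace.single 0 1, by simp⟩
  rw [tendsto_iff_norm_sub_tendsto_zero]
  have hb : Tendsto (fun t => C * Real.exp (-t)) atTop (𝓝 (C * 0)) :=
    (Real.tendsto_exp_neg_atTop_nhds_zero).const_mul C
  rw [mul_zero] at hb
  refine squeeze_zero' (Eventually.of_forall fun t => norm_nonneg _) ?_ hb
  filter_upwards [eventually_lt_exp ρ₁, eventually_lt_exp R] with t ht hR
  have h1 := (hC (pt t ω) (by rw [norm_pt]; exact hR.le) 0 0).1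
  rw [metric_apply hd.metric_eq (lt_norm_pt ht ω), norm_pt] at h1
  simp only [dl, ↓reduceIte, mul_one, Matrix.one_apply_eq] at h1
  rw [Real.exp_neg, Real.norm_eq_abs]
  exact h1

theorem tendsto_u (hd : SphericalMetricData ρ₁ u g h) :
    Tendsto (fun t => u (Real.exp t)) atTop (𝓝 0) := by
  have h1 := ((Real.continuousAt_log one_ne_zero).tendsto.comp (tendsto_exp_two_u hd)).div_const 2
  rw [Real.log_one, zero_div] at h1
  refine h1.congr fun t => ?_
  simp

theorem tendsto_wf_atTop (hd : SphericalMetricData ρ₁ u g h) : Tendsto (wf u) atTop atTop :=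
  tendsto_id.atTop_add (tendsto_u hd)

theorem tendsto_sq_du (hd : SphericalMetricData ρ₁ u g h) {m : ℝ} (hm : IsTotalMass g m) :
    Tendsto (fun t => Real.exp t ^ 2 * du u (Real.exp t)) atTop (𝓝 (-m)) := by
  have h1 : Tendsto (fun t => massIntegral g (Real.exp t)) atTop (𝓝 m) :=
    hm.comp Real.tendsto_exp_atTop
  have h2 := (h1.neg).div (tendsto_exp_two_u hd) one_ne_zero
  rw [div_one] at h2
  refine h2.congr' ?_
  filter_upwards [eventually_lt_exp ρ₁] with t ht
  simp only [Pi.div_apply]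
  rw [massIntegral_eq hd t ht]
  have := (Real.exp_pos (2 * u (Real.exp t))).ne'
  field_simp

theorem tendsto_exp_neg : Tendsto (fun t => Real.exp (-t)) atTop (𝓝 0) :=
  Real.tendsto_exp_neg_atTop_nhds_zero

theorem tendsto_exp_du (hd : SphericalMetricData ρ₁ u g h) {m : ℝ} (hm : IsTotalMass g m) :
    Tendsto (fun t => Real.exp t * du u (Real.exp t)) atTop (𝓝 0) := by
  have h1 := tendsto_exp_neg.mul (tendsto_sq_du hd hm)
  rw [zero_mul] at h1
  refine h1.congr fun t => ?_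
  rw [Real.exp_neg]
  have := (Real.exp_pos t).ne'
  field_simp

theorem tendsto_wf1 (hd : SphericalMetricData ρ₁ u g h) {m : ℝ} (hm : IsTotalMass g m) :
    Tendsto (wf1 u) atTop (𝓝 1) := by
  have := (tendsto_exp_du hd hm).const_add 1
  rw [add_zero] at this
  exact this

theorem tendsto_mass (hd : SphericalMetricData ρ₁ u g h) {m : ℝ} (hm : IsTotalMass g m) :
    Tendsto (fun t => Real.exp (wf u t) * (1 - wf1 u t ^ 2)) atTop (𝓝 (2 * m)) := by
  have h1 : Tendsto (fun t => Real.exp (u (Real.exp t))) atTop (𝓝 1) := by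
    have := (Real.continuous_exp.tendsto 0).comp (tendsto_u hd)
    rw [Real.exp_zero] at this
    exact this
  have h2 := h1.mul (((tendsto_sq_du hd hm).const_mul (-2)).sub
    ((tendsto_sq_du hd hm).mul (tendsto_exp_du hd hm)))
  have e : (1 : ℝ) * (-2 * -m - -m * 0) = 2 * m := by ring
  rw [e] at h2
  refine h2.congr fun t => ?_
  unfold wf wf1
  rw [Real.exp_add]
  ring

theorem wf1_eq (t : ℝ) : wf1 u t = Real.exp t * (1 / Real.exp t + deriv u (Real.exp t)) := by
  unfold wf1 du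
  have := (Real.exp_pos t).ne'
  field_simp

theorem wf1_pos_iff (t : ℝ) : 0 < wf1 u t ↔ 0 < 1 / Real.exp t + deriv u (Real.exp t) := by
  rw [wf1_eq, mul_pos_iff_of_pos_left (Real.exp_pos t)]

theorem exists_wf1_nonpos (hd : SphericalMetricData ρ₁ u g h) :
    ∃ t, ρ₁ < Real.exp t ∧ wf1 u t ≤ 0 := by
  rcases hd.inner with ⟨h0, hT⟩ | ⟨ρ, hρ, hρ1⟩
  · by_contra hcon
    push Not at hcon
    have hcon' : ∀ t, 0 < wf1 u t := fun t => hcon t (by rw [h0]; exact Real.exp_pos t)
    have hmono : StrictMono (wf u) :=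
      strictMono_of_hasDerivAt_pos (fun t => hasDerivAt_wf hd.contDiff_u t
        (by rw [h0]; exact Real.exp_pos t)) hcon'
    have h1 := hT.eventually (eventually_gt_atTop (4 * Real.pi * Real.exp (2 * wf u 0)))
    have h2 : Tendsto Real.exp atBot (𝓝[>] 0) := Real.tendsto_exp_atBot_nhdsGT
    have h3 := (h2.eventually h1).and (eventually_le_atBot (0 : ℝ))
    obtain ⟨t, ht, ht0⟩ := h3.exists
    have h4 : wf u t ≤ wf u 0 := hmono.monotone ht0
    have h5 : sphereArea u (Real.exp t) = 4 * Real.pi * Real.exp (2 * wf u t) := by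
      unfold sphereArea wf
      rw [mul_add, Real.exp_add, mul_assoc, ← Real.exp_nat_mul]
      push_cast
      ring
    rw [h5] at ht
    have : Real.exp (2 * wf u t) ≤ Real.exp (2 * wf u 0) := Real.exp_le_exp.2 (by linarith)
    have h6 : 4 * Real.pi * Real.exp (2 * wf u t) ≤ 4 * Real.pi * Real.exp (2 * wf u 0) := by
      have := Real.pi_pos
      gcongr
    linarith
  · have hρ0 : 0 < ρ := lt_of_le_of_lt hd.radius_nonneg hρ
    refine ⟨Real.log ρ, by rwa [Real.exp_log hρ0], ?_⟩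
    rw [← not_lt, wf1_pos_iff, not_lt, Real.exp_log hρ0]
    exact hρ1

/-- rescaled tangential trace -/
noncomputable def kf (h : TensorField) (t : ℝ) (ω : Metric.sphere (0 : E3) 1) : ℝ :=
  Real.exp t ^ 2 * tangentialTrace h (pt t ω)

noncomputable def kdf (h : TensorField) (t : ℝ) (ω : Metric.sphere (0 : E3) 1) : ℝ :=
  2 * Real.exp t ^ 2 * tangentialTrace h (pt t ω)
    + Real.exp t ^ 3 * rd (tangentialTrace h) (pt t ω)

noncomputable def Pf (h : TensorField) (t : ℝ) (ω : Metric.sphere (0 : E3) 1) : ℝ :=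
  Real.exp t ^ 2 * radialPart h (pt t ω)

noncomputable def Df (h : TensorField) (t : ℝ) (ω : Metric.sphere (0 : E3) 1) : ℝ :=
  Real.exp t ^ 3 * fluxDivergence h (pt t ω)

noncomputable def Ef (h : TensorField) (t : ℝ) (ω : Metric.sphere (0 : E3) 1) : ℝ :=
  Real.exp t ^ 4 * shearSq h (pt t ω)

theorem isOpen_region : IsOpen {x : E3 | ρ₁ < ‖x‖} := isOpen_lt continuous_const continuous_norm

theorem differentiableAt_h (hd : SphericalMetricData ρ₁ u g h) {x : E3} (hx : ρ₁ < ‖x‖)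
    (i j : Fin 3) : DifferentiableAt ℝ (fun y => h y i j) x :=
  ((hd.contDiff_h i j).differentiableOn (by norm_num)).differentiableAt
    (isOpen_region.mem_nhds hx)

theorem hasDerivAt_kf (hd : SphericalMetricData ρ₁ u g h) (t : ℝ) (ht : ρ₁ < Real.exp t)
    (ω : Metric.sphere (0 : E3) 1) :
    HasDerivAt (fun s => kf h s ω) (kdf h t ω) t := by
  have hx := lt_norm_pt ht ω
  have h1 := hasDerivAt_comp_pt (t := t) (ω := ω)
    (differentiableAt_tangentialTrace hd.radius_nonneg hx (differentiableAt_h hd hx))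
  have h2 := ((Real.hasDerivAt_exp t).pow 2).mul h1
  refine h2.congr_deriv ?_
  simp only [kdf, Pi.pow_apply]
  push_cast
  ring

theorem dec_core (hd : SphericalMetricData ρ₁ u g h) (hdec : DominantEnergy ρ₁ g h) (t : ℝ)
    (ht : ρ₁ < Real.exp t) (ω : Metric.sphere (0 : E3) 1) :
    Real.exp (-wf u t) * |kdf h t ω - wf1 u t * (2 * Pf h t ω + kf h t ω) - Df h t ω| ≤
      1 - wf1 u t ^ 2 - 2 * wf2 u t
        + Real.exp (-(2 * wf u t)) * (Pf h t ω * kf h t ω + kf h t ω ^ 2 / 4 - Ef h t ω / 2) := by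
  have hx := lt_norm_pt ht ω
  have h1 := dec_radial hd.radius_nonneg (hasDerivAt_u hd.contDiff_u)
    (hasDerivAt_du hd.contDiff_u) hd.metric_eq hx
    (differentiableAt_h hd hx) (hd.symm_h _ hx) (hdec _ hx)
  rw [norm_pt] at h1
  unfold kdf wf1 wf2 Pf kf Df Ef wf
  set κ := tangentialTrace h (pt t ω)
  set η := radialPart h (pt t ω)
  set R := rd (tangentialTrace h) (pt t ω)
  set F := fluxDivergence h (pt t ω)
  set s := shearSq h (pt t ω)
  set U1 := du u (Real.exp t)
  set U2 := ddu u (Real.exp t)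
  have hρ := Real.exp_pos t
  have e1 : 2 * Real.exp t ^ 2 * κ + Real.exp t ^ 3 * R
      - (1 + Real.exp t * U1) * (2 * (Real.exp t ^ 2 * η) + Real.exp t ^ 2 * κ)
      - Real.exp t ^ 3 * F
      = Real.exp t ^ 3 * (R - U1 * (2 * η + κ) - (2 * η - κ) / Real.exp t - F) := by
    field_simp
    ring
  rw [e1, abs_mul, abs_of_pos (by positivity : 0 < Real.exp t ^ 3)]
  set Q := |R - U1 * (2 * η + κ) - (2 * η - κ) / Real.exp t - F|
  have h2 := mul_le_mul_of_nonneg_left h1
    (by positivity : 0 ≤ Real.exp t ^ 2 * Real.exp (2 * u (Real.exp t)))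
  set v := u (Real.exp t)
  have e2 : Real.exp (-(t + v)) * (Real.exp t ^ 3 * Q)
      = Real.exp t ^ 2 * Real.exp (2 * v) * (Real.exp (-(3 * v)) * Q) := by
    have : Real.exp (-(t + v)) * Real.exp t = Real.exp (2 * v) * Real.exp (-(3 * v)) := by
      rw [← Real.exp_add, ← Real.exp_add]; ring_nf
    linear_combination (Real.exp t ^ 2 * Q) * this
  rw [e2]
  refine h2.trans (le_of_eq ?_)
  have e3 : Real.exp (2 * v) * Real.exp (-(2 * v)) = 1 := by
    rw [← Real.exp_add]; simp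
  have e4 : Real.exp (2 * v) * Real.exp (-(4 * v)) = Real.exp (-(2 * (t + v))) * Real.exp t ^ 2 := by
    rw [← Real.exp_nat_mul, ← Real.exp_add, ← Real.exp_add]; push_cast; ring_nf
  have e5 : Real.exp t ^ 2 * (U1 / Real.exp t) = Real.exp t * U1 := by
    field_simp
  have e6 : 4 * U1 / Real.exp t = 4 * (U1 / Real.exp t) := by ring
  rw [e6]
  linear_combination (-(Real.exp t ^ 2) * (2 * U2 + 4 * (U1 / Real.exp t) + U1 ^ 2)) * e3
    + (Real.exp t ^ 2 * (η * κ + κ ^ 2 / 4 - s / 2)) * e4 - 4 * e5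

theorem continuousOn_radialPart (hd : SphericalMetricData ρ₁ u g h) :
    ContinuousOn (radialPart h) {x : E3 | ρ₁ < ‖x‖} := fun _ hx =>
  (differentiableAt_radialPart hd.radius_nonneg hx
    (differentiableAt_h hd hx)).continuousAt.continuousWithinAt

theorem continuousOn_tangentialTrace (hd : SphericalMetricData ρ₁ u g h) :
    ContinuousOn (tangentialTrace h) {x : E3 | ρ₁ < ‖x‖} := fun _ hx =>
  (differentiableAt_tangentialTrace hd.radius_nonneg hx
    (differentiableAt_h hd hx)).continuousAt.continuousWithinAt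

theorem continuousOn_comp_pt {f : E3 → ℝ} (hf : ContinuousOn f {x : E3 | ρ₁ < ‖x‖}) {T0 : ℝ}
    (hT : ρ₁ < Real.exp T0) :
    ContinuousOn (Function.uncurry fun t ω => f (pt t ω)) (Set.Ici T0 ×ˢ Set.univ) :=
  hf.comp continuous_pt.continuousOn fun p hp =>
    lt_norm_pt (lt_of_lt_of_le hT (Real.exp_le_exp.2 hp.1)) p.2

theorem continuousOn_kf (hd : SphericalMetricData ρ₁ u g h) {T0 : ℝ}
    (hT : ρ₁ < Real.exp T0) :
    ContinuousOn (Function.uncurry (kf h)) (Set.Ici T0 ×ˢ Set.univ) := by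
  have h1 := continuousOn_comp_pt (continuousOn_tangentialTrace hd) hT
  have h2 : Continuous fun p : ℝ × Metric.sphere (0 : E3) 1 => Real.exp p.1 ^ 2 := by fun_prop
  exact h2.continuousOn.mul h1

theorem abs_nu_le (x : E3) (i : Fin 3) : |x i / ‖x‖| ≤ 1 := by
  rw [abs_div, abs_norm]
  have : |x i| ≤ ‖x‖ := by
    have := PiLp.norm_apply_le x i
    simpa using this
  exact div_le_one_of_le₀ this (norm_nonneg _)

theorem kf_bound (hd : SphericalMetricData ρ₁ u g h) :
    ∃ C, ∀ᶠ t in atTop, ∀ ω, |kf h t ω| ≤ C := by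
  obtain ⟨C, R, hC⟩ := hd.decay
  refine ⟨12 * C, ?_⟩
  filter_upwards [eventually_lt_exp R] with t ht ω
  have h1 := fun i j => (hC (pt t ω) (by rw [norm_pt]; exact ht.le) i j).2
  rw [norm_pt] at h1
  have hρ := Real.exp_pos t
  have hC0 : 0 ≤ C / Real.exp t ^ 2 := (abs_nonneg _).trans (h1 0 0)
  have h2 : |radialPart h (pt t ω)| ≤ 9 * (C / Real.exp t ^ 2) := by
    unfold radialPart
    refine (Finset.abs_sum_le_sum_abs _ _).trans ?_
    have h3 : ∀ i, |∑ j, h (pt t ω) i j * (pt t ω i / ‖pt t ω‖) * (pt t ω j / ‖pt t ω‖)|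
        ≤ 3 * (C / Real.exp t ^ 2) := by
      intro i
      refine (Finset.abs_sum_le_sum_abs _ _).trans ?_
      have h4 : ∀ j, |h (pt t ω) i j * (pt t ω i / ‖pt t ω‖) * (pt t ω j / ‖pt t ω‖)|
          ≤ C / Real.exp t ^ 2 := by
        intro j
        rw [abs_mul, abs_mul]
        have a1 := abs_nu_le (pt t ω) i
        have a2 := abs_nu_le (pt t ω) j
        calc |h (pt t ω) i j| * |pt t ω i / ‖pt t ω‖| * |pt t ω j / ‖pt t ω‖|
            ≤ C / Real.exp t ^ 2 * 1 * 1 := by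
              have := h1 i j
              gcongr
          _ = C / Real.exp t ^ 2 := by ring
      refine (Finset.sum_le_sum fun j _ => h4 j).trans (le_of_eq ?_)
      simp
    refine (Finset.sum_le_sum fun i _ => h3 i).trans (le_of_eq ?_)
    simp
    ring
  have h5 : |∑ i, h (pt t ω) i i| ≤ 3 * (C / Real.exp t ^ 2) := by
    refine (Finset.abs_sum_le_sum_abs _ _).trans ?_
    refine (Finset.sum_le_sum fun i _ => h1 i i).trans (le_of_eq ?_)
    simp
  unfold kf tangentialTrace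
  rw [abs_mul, abs_of_pos (by positivity : 0 < Real.exp t ^ 2)]
  have h6 := abs_sub (∑ i, h (pt t ω) i i) (radialPart h (pt t ω))
  calc Real.exp t ^ 2 * |(∑ i, h (pt t ω) i i) - radialPart h (pt t ω)|
      ≤ Real.exp t ^ 2 * (3 * (C / Real.exp t ^ 2) + 9 * (C / Real.exp t ^ 2)) := by
        gcongr
        linarith
    _ = 12 * C := by field_simp; ring

/-- Every nonzero point is of the form `pt t ω`. -/
theorem exists_pt {x : E3} {t : ℝ} (hx : ‖x‖ = Real.exp t) : ∃ ω, x = pt t ω := by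
  have h0 := Real.exp_pos t
  refine ⟨⟨(Real.exp t)⁻¹ • x, ?_⟩, ?_⟩
  · rw [mem_sphere_zero_iff_norm, norm_smul, hx, norm_inv, Real.norm_eq_abs, Real.abs_exp]
    field_simp
  · unfold pt
    rw [smul_smul, mul_inv_cancel₀ h0.ne', one_smul]

theorem kf_mul_Df_add (t : ℝ) (ω : Metric.sphere (0 : E3) 1) :
    kf h t ω * Df h t ω + wf1 u t * Ef h t ω = Real.exp t ^ 5 *
      (tangentialTrace h (pt t ω) * fluxDivergence h (pt t ω)
        + (1 / Real.exp t + deriv u (Real.exp t)) * shearSq h (pt t ω)) := by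
  rw [wf1_eq]
  unfold kf Df Ef
  ring

/-- The criterion with extremal points of `|tr_S h|`. -/
theorem exp_le_of_extremal (hd : SphericalMetricData ρ₁ u g h) (hdec : DominantEnergy ρ₁ g h)
    (S : Set ℝ) (hS : IsUpperSet S)
    (hmin : ∀ ρ, ρ₁ < ρ → 0 < 1 / ρ + deriv u ρ → ρ ∉ S → ∃ x : E3, ‖x‖ = ρ ∧
      (∀ y : E3, ‖y‖ = ρ → |tangentialTrace h x| ≤ |tangentialTrace h y|) ∧
      0 ≤ tangentialTrace h x * fluxDivergence h x + (1 / ρ + deriv u ρ) * shearSq h x)
    (hmax : ∀ ρ, ρ₁ < ρ → 0 < 1 / ρ + deriv u ρ → ρ ∈ S → ∃ x : E3, ‖x‖ = ρ ∧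
      (∀ y : E3, ‖y‖ = ρ → |tangentialTrace h y| ≤ |tangentialTrace h x|) ∧
      0 ≤ tangentialTrace h x * fluxDivergence h x + (1 / ρ + deriv u ρ) * shearSq h x)
    {m : ℝ} (hm : IsTotalMass g m) :
    ∃ t, ρ₁ < Real.exp t ∧ Real.exp (wf u t) ≤ 2 * m ∧ ∀ s, t < s → 0 < wf1 u s := by
  obtain ⟨C, hC⟩ := kf_bound hd
  obtain ⟨T0, hT0, hT0'⟩ := exists_wf1_nonpos hd
  have hlt : ∀ t, T0 ≤ t → ρ₁ < Real.exp t := fun t ht =>
    lt_of_lt_of_le hT0 (Real.exp_le_exp.2 ht)
  have : Nonempty (Metric.sphere (0 : E3) 1) :=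
    ⟨⟨EuclideanSpace.single 0 1, by simp⟩⟩
  have key := core (X := Metric.sphere (0 : E3) 1) (k := kf h) (kd := kdf h) (P := Pf h)
    (D := Df h) (E' := Ef h) (T0 := T0)
    (fun t ht => hasDerivAt_wf hd.contDiff_u t (hlt t ht))
    (fun t ht => hasDerivAt_wf1 hd.contDiff_u t (hlt t ht)) (continuousOn_kf hd hT0)
    (fun t ht => hasDerivAt_kf hd t (hlt t ht)) (fun t ht _ => dec_core hd hdec t (hlt t ht))
    (Real.exp ⁻¹' S)
    (fun a b hab ha => hS (Real.exp_le_exp.2 hab) ha) ?_ ?_ (tendsto_wf1 hd hm)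
    (tendsto_wf_atTop hd) hC (tendsto_mass hd hm) hT0'
  · obtain ⟨t, ht, h1, h2⟩ := key
    exact ⟨t, hlt t ht, h1, h2⟩
  · intro t hTt ht1 ht
    obtain ⟨x, hx, h1, h2⟩ := hmin (Real.exp t) (hlt t hTt) ((wf1_pos_iff t).1 ht1) ht
    obtain ⟨ω, rfl⟩ := exists_pt hx
    refine ⟨ω, fun ω' => ?_, ?_⟩
    · unfold kf
      rw [abs_mul, abs_mul]
      exact mul_le_mul_of_nonneg_left (h1 _ (norm_pt t ω')) (abs_nonneg _)
    · rw [kf_mul_Df_add]
      positivity
  · intro t hTt ht1 ht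
    obtain ⟨x, hx, h1, h2⟩ := hmax (Real.exp t) (hlt t hTt) ((wf1_pos_iff t).1 ht1) ht
    obtain ⟨ω, rfl⟩ := exists_pt hx
    refine ⟨ω, fun ω' => ?_, ?_⟩
    · unfold kf
      rw [abs_mul, abs_mul]
      exact mul_le_mul_of_nonneg_left (h1 _ (norm_pt t ω')) (abs_nonneg _)
    · rw [kf_mul_Df_add]
      positivity

/-- The conclusion in terms of areas. -/
theorem conclusion_of_exp_le (hd : SphericalMetricData ρ₁ u g h) {m : ℝ}
    (H : ∃ t, ρ₁ < Real.exp t ∧ Real.exp (wf u t) ≤ 2 * m ∧ ∀ s, t < s → 0 < wf1 u s) :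
    ∃ ρ, ρ₁ < ρ ∧ (∀ s, ρ < s → 0 < deriv (fun r => r * Real.exp (u r)) s) ∧
      Real.sqrt (sphereArea u ρ / (16 * Real.pi)) ≤ m := by
  obtain ⟨t, hlt, ht, hpos⟩ := H
  refine ⟨Real.exp t, hlt, ?_, ?_⟩
  · intro s hs
    have hs0 : 0 < s := (Real.exp_pos t).trans hs
    have h1 := hpos (Real.log s) ((Real.lt_log_iff_exp_lt hs0).2 hs)
    rw [wf1_pos_iff, Real.exp_log hs0] at h1
    have h2 := (hasDerivAt_id s).mul (hasDerivAt_u hd.contDiff_u s (hlt.trans hs)).exp
    have h3 : deriv (fun r => r * Real.exp (u r)) s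
        = s * Real.exp (u s) * (1 / s + deriv u s) := by
      have := h2.deriv
      simp only [id] at this
      refine this.trans ?_
      unfold du
      field_simp
    rw [h3]
    positivity
  · have h5 : sphereArea u (Real.exp t) / (16 * Real.pi) = (Real.exp (wf u t) / 2) ^ 2 := by
      unfold sphereArea wf
      have := Real.pi_ne_zero
      rw [Real.exp_add, two_mul, Real.exp_add]
      field_simp
      ring
    rw [h5, Real.sqrt_sq (by positivity)]
    linarith

end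

end Pool.Agent.PenroseSph
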